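import Pool.Agent.W_7d29a1_HE.Ea
import Pool.Agent.W_7d29a1_HS.Trans

/-!
MP_7d29a1_pr, TRACK H, part 4 (row 663), block HE: the end point of the polymer with the force `h` (tilt `2 h`) is spread at the
scale `w_n`: the transfer to the polymer of the problem (model: `W_7d29a1_59E.Eh`).
-/

set_option autoImplicit false

namespace Pool.Agent.W_7d29a1_HE

open MeasureTheory ProbabilityTheory Filter Topology
open Pool.Agent.W_7d29a1_F Pool.Agent.W_7d29a1_H Pool.Agent.W_7d29a1_HS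
open Pool.Agent.W_7d29a1_g (TA_q TA_pw TA_q_zero TA_q_succ TA_q_nonneg TA_q_le TA_Zr)
open Pool.Agent.W_7d29a1_h47 (Lam walk energy polE endMGF forceP ext pos walk_eq sum_T_eq)
open Pool.Agent.W_7d29a1_SR (toF)

/-- The ends in the ball of radius `r` around `v n` (`v` = velocity in the coordinates of the problem). -/
noncomputable def Ib (v : ℝ) (n : ℕ) (r : ℝ) : Finset ℤ := by
  classical
  exact (Finset.Icc (0 : ℤ) n).filter fun y => |2 * (y : ℝ) - n - v * n| ≤ r

theorem mem_Ib {v : ℝ} {n : ℕ} {r : ℝ} {y : ℤ} : y ∈ Ib v n r ↔ (0 ≤ y ∧ y ≤ n) ∧ |2 * (y : ℝ) - n - v * n| ≤ r := by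
  unfold Ib
  rw [Finset.mem_filter, Finset.mem_Icc]

/-- The ends of the ball of radius `r` around the velocity of the force `h`, in the coordinates of the model. -/
theorem mem_Ib_vel {μ : Measure ℝ} {h : ℝ} {n : ℕ} {r : ℝ} {y : ℤ} (hy : y ∈ Ib (vel μ h) n r) :
    |(y : ℝ) - sl μ (2 * h) * n| ≤ r / 2 := by
  have h1 := (mem_Ib.1 hy).2
  unfold vel at h1
  have e : 2 * (y : ℝ) - n - (2 * sl μ (2 * h) - 1) * n = 2 * ((y : ℝ) - sl μ (2 * h) * n) := by ring
  rw [e, abs_mul, abs_of_pos (two_pos : (0 : ℝ) < 2)] at h1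
  linarith

private lemma eh_pos (s : ℕ → Bool) (i : ℕ) : pos s i = 2 * TA_q s i - i := by
  induction i with
  | zero => simp [pos, TA_q_zero]
  | succ i ih =>
    have h1 : pos s (i + 1) = pos s i + Pool.Agent.W_7d29a1_h47.stp (s i) := by
      unfold pos
      rw [Finset.sum_range_succ]
    rw [h1, ih, TA_q_succ]
    unfold Pool.Agent.W_7d29a1_h47.stp
    push_cast
    split_ifs <;> ring

private lemma eh_pw (β : ℝ) (ω : ℕ × ℤ → ℝ) {n : ℕ} (s : Fin n → Bool) :
    TA_pw Set.univ (toF β ω) 0 n (ext s) = Real.exp (β * energy ω s) := by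
  unfold TA_pw
  have e0 : ∀ i : ℕ, (((0 : Pt).1 + ((i : ℤ) + 1), (0 : Pt).2 + TA_q (ext s) (i + 1)) : Pt) =
      ((i : ℤ) + 1, TA_q (ext s) (i + 1)) := by
    intro i
    simp
  simp only [e0]
  have h1 : ∀ i ∈ Finset.range n, Set.univ.indicator (fun p => Real.exp (toF β ω p))
      (((i : ℤ) + 1, TA_q (ext s) (i + 1)) : Pt) = Real.exp (β * ω (i + 1, pos (ext s) (i + 1))) := by
    intro i _
    rw [Set.indicator_univ]
    congr 1
    unfold Pool.Agent.W_7d29a1_SR.toF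
    rw [if_pos (by simp only; omega), eh_pos]
    congr 2
  rw [Finset.prod_congr rfl h1, ← Real.exp_sum]
  congr 1
  unfold energy
  rw [Finset.sum_range fun i => _, Finset.mul_sum]
  refine Finset.sum_congr rfl fun i _ => ?_
  rw [walk_eq s (by omega)]

private lemma eh_fac (μ : Measure ℝ) (h : ℝ) {n : ℕ} (s : Fin n → Bool) :
    Real.exp (2 * h * (TA_q (ext s) n : ℝ) - n * lam μ (2 * h)) =
      Real.exp (-(n * Lam μ h)) * Real.exp (h * (walk s n : ℝ)) := by
  rw [← Real.exp_add, walk_eq s le_rfl, eh_pos]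
  congr 1
  unfold lam
  rw [mul_div_cancel_left₀ _ (two_ne_zero' ℝ)]
  push_cast
  ring

/-- The weight of the ends in a set as a sum over the walks. -/
private lemma eh_sum (μ : Measure ℝ) (β h : ℝ) (ω : ℕ × ℤ → ℝ) (n : ℕ) (S : Finset ℤ) :
    ∑ y ∈ S, wu μ (2 * h) Set.univ (toF β ω) 0 0 n y = Real.exp (-(n * Lam μ h)) * ∑ s : Fin n → Bool,
      if TA_q (ext s) n ∈ S then Real.exp (h * (walk s n : ℝ) + β * energy ω s) else 0 := by
  classical
  have h1 : ∀ y : ℤ, wu μ (2 * h) Set.univ (toF β ω) 0 0 n y =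
      ∑ s ∈ Pool.Agent.W_7d29a1_h47.T n, if TA_q s n = y then
        Real.exp (2 * h * (TA_q s n : ℝ) - n * lam μ (2 * h)) * TA_pw Set.univ (toF β ω) 0 n s else 0 := by
    intro y
    unfold wu WR
    have hz : (((0 : ℤ), (0 : ℤ)) : Pt) = 0 := rfl
    rw [hz, sub_zero, TA_Zr, Finset.mul_sum]
    refine Finset.sum_congr rfl fun s _ => ?_
    by_cases h : TA_q s n = y
    · rw [if_pos h, if_pos h, h]
    · rw [if_neg h, if_neg h, mul_zero]
  simp only [h1]
  rw [Finset.sum_comm, sum_T_eq, Finset.mul_sum]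
  refine Finset.sum_congr rfl fun s _ => ?_
  rw [Finset.sum_ite_eq, eh_pw, eh_fac]
  split_ifs
  · rw [mul_assoc, Real.exp_add]
  · rw [mul_zero]

private lemma eh_V (μ : Measure ℝ) (β h : ℝ) (ω : ℕ × ℤ → ℝ) (n : ℕ) :
    Real.exp (V μ (2 * h) (toF β ω) 0 n) = Real.exp (-(n * Lam μ h)) *
      ∑ s : Fin n → Bool, Real.exp (h * (walk s n : ℝ) + β * energy ω s) := by
  have h2 : (0 : ℝ) < ∑ s : Fin n → Bool, Real.exp (h * (walk s n : ℝ) + β * energy ω s) :=
    Finset.sum_pos (fun _ _ => Real.exp_pos _) Finset.univ_nonempty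
  rw [V_toF, parZ, Real.log_div h2.ne' (by positivity), Real.log_pow]
  have e : Real.log (∑ s : Fin n → Bool, Real.exp (h * (walk s n : ℝ) + β * energy ω s)) - n * Real.log 2 -
      n * (Lam μ h - Real.log 2) = -(n * Lam μ h) +
        Real.log (∑ s : Fin n → Bool, Real.exp (h * (walk s n : ℝ) + β * energy ω s)) := by ring
  rw [e, Real.exp_add, Real.exp_log h2]

/-- The probability that the end point is in the ball of radius `r` around `v_h n`. -/
theorem end_toF (μ : Measure ℝ) (β h : ℝ) (ω : ℕ × ℤ → ℝ) (n : ℕ) (r : ℝ) :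
    (∑ y ∈ Ib (vel μ h) n r, wu μ (2 * h) Set.univ (toF β ω) 0 0 n y) / Real.exp (V μ (2 * h) (toF β ω) (0, 0) n) =
      forceP β h ω n {s | |(walk s n : ℝ) - vel μ h * n| ≤ r} := by
  classical
  have hz : ((0, 0) : Pt) = 0 := rfl
  rw [hz, eh_sum, eh_V, mul_div_mul_left _ _ (Real.exp_pos _).ne', forceP_eq]
  congr 1
  refine Finset.sum_congr rfl fun s _ => ?_
  have h2 : TA_q (ext s) n ∈ Ib (vel μ h) n r ↔ s ∈ {s : Fin n → Bool | |(walk s n : ℝ) - vel μ h * n| ≤ r} := by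
    rw [mem_Ib, Set.mem_ofPred_eq, walk_eq s le_rfl, eh_pos]
    push_cast
    exact ⟨fun h => h.2, fun h => ⟨⟨TA_q_nonneg _ n, TA_q_le _ n⟩, h⟩⟩
  by_cases h' : s ∈ {s : Fin n → Bool | |(walk s n : ℝ) - vel μ h * n| ≤ r}
  · rw [if_pos (h2.2 h'), if_pos h']
  · rw [if_neg fun h'' => h' (h2.1 h''), if_neg h']

end Pool.Agent.W_7d29a1_HE
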