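import Pool.Agent.W_7d29a1_HE.Eg
import Pool.Agent.W_7d29a1_HE.Eh
import Pool.Agent.W_7d29a1_HS.FinS
import Pool.Agent.W_7d29a1_HS.MaxM

/-!
MP_7d29a1_pr, TRACK H, part 4 (row 663), block HE: the end point of the polymer with the force `h` is spread at the scale `w_n`,
for the width `w_n` of `J μ (2 h) (v / 2)` and `σ_n` (model: `W_7d29a1_59E.Ei`).
-/

set_option autoImplicit false

namespace Pool.Agent.W_7d29a1_HE

open MeasureTheory ProbabilityTheory Filter Topology
open Pool.Agent.W_7d29a1_F Pool.Agent.W_7d29a1_h4g Pool.Agent.W_7d29a1_H Pool.Agent.W_7d29a1_HS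
open Pool.Agent.W_7d29a1_h47 (Lam walk energy polE endMGF forceP forceE)
open Pool.Agent.W_7d29a1_SR (toF toF_integral toF_real wid)

variable {Ω : Type*} [MeasurableSpace Ω] {P : Measure Ω} [IsProbabilityMeasure P] {ω : ℕ × ℤ → Ω → ℝ} {β : ℝ}
  {μ : Measure ℝ} [IsProbabilityMeasure μ] {h c C : ℝ} {n₀ : ℕ}

omit [IsProbabilityMeasure μ] in
private lemma meas_wu27 (s : ℝ) (n : ℕ) (y : ℤ) : Measurable fun η : Env => wu μ s Set.univ η 0 0 n y := by
  unfold wu
  exact (poly_WR (μ := μ) (s := s) Set.univ ((0, 0) : Pt) n (y - 0)).measurable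

/-- The averaged probability that `|S_n - v n| ≤ c' w_n` is at most `ε`. -/
theorem endS_P (hI : In μ (2 * h) c C n₀) (hmeas : ∀ p, Measurable (ω p))
    (hmp : MeasurePreserving (fun x => toF β fun p => ω p x) P (law μ)) {ε : ℝ} (hε : 0 < ε) :
    ∃ c' : ℝ, 0 < c' ∧ ∃ n₁ : ℕ, ∀ n, n₁ ≤ n →
      ∫ x, forceP β h (fun p => ω p x) n
        {s | |(walk s n : ℝ) - vel μ h * n| ≤ c' * wth P β h ω (fun v => J μ (2 * h) (v / 2)) n} ∂P ≤ ε := by
  classical
  obtain ⟨a, ha, n₁, hs⟩ := Pool.Agent.W_7d29a1_HE.spread hI (ε := ε / 2) (by positivity)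
  obtain ⟨a₁, A₁, b, B, -, -, hb, hB, n₂, hn₂, hsc⟩ := scales (P := P) (β := β) (ω := ω) hI hmp
  refine ⟨a / B, by positivity, max n₁ n₂, fun n hn => ?_⟩
  obtain ⟨-, -, hw1, hw2, hwd⟩ := hsc n ((le_max_right _ _).trans hn)
  obtain ⟨r, hr⟩ : ∃ r : ℝ, r = a / B * wth P β h ω (fun v => J μ (2 * h) (v / 2)) n := ⟨_, rfl⟩
  rw [← hr]
  have hrw : r / 2 ≤ a * wd μ (2 * h) n := by
    have h2 := mul_le_mul_of_nonneg_left hw2 (show 0 ≤ a / B by positivity)
    have h3 : r ≤ a * wd μ (2 * h) n := by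
      rw [hr]
      refine h2.trans (le_of_eq ?_)
      field_simp
    have h4 : 0 ≤ a * wd μ (2 * h) n := mul_nonneg ha.le (by linarith)
    linarith
  have h1 := hs n ((le_max_left _ _).trans hn) (Ib (vel μ h) n r) fun y hy => (mem_Ib_vel hy).trans hrw
  -- the event on the space of the problem
  have hmA : MeasurableSet {η : Env | ε / 2 * Real.exp (V μ (2 * h) η (0, 0) n) <
      ∑ y ∈ Ib (vel μ h) n r, wu μ (2 * h) Set.univ η 0 0 n y} :=
    measurableSet_lt ((Real.measurable_exp.comp (measurable_V _ n)).const_mul _)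
      (Finset.measurable_sum _ fun y _ => meas_wu27 _ _ _)
  rw [← toF_real (P := P) (β := β) hmp hmA] at h1
  obtain ⟨A, hA⟩ : ∃ A : Set Ω, A = {x | (toF β fun p => ω p x) ∈
    {η : Env | ε / 2 * Real.exp (V μ (2 * h) η (0, 0) n) <
      ∑ y ∈ Ib (vel μ h) n r, wu μ (2 * h) Set.univ η 0 0 n y}} := ⟨_, rfl⟩
  rw [← hA] at h1
  have hAm : MeasurableSet A := by
    rw [hA]
    exact hmp.measurable hmA
  have h2 : ∀ x, forceP β h (fun p => ω p x) n {s | |(walk s n : ℝ) - vel μ h * n| ≤ r} ≤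
      A.indicator (fun _ => (1 : ℝ)) x + ε / 2 := by
    intro x
    by_cases hx : x ∈ A
    · rw [Set.indicator_of_mem hx]
      have := forceP_le_one β h (fun p => ω p x) n {s | |(walk s n : ℝ) - vel μ h * n| ≤ r}
      linarith
    · rw [Set.indicator_of_notMem hx, zero_add]
      have h3 := end_toF μ β h (fun p => ω p x) n r
      have h4 : ∑ y ∈ Ib (vel μ h) n r, wu μ (2 * h) Set.univ (toF β fun p => ω p x) 0 0 n y ≤
          ε / 2 * Real.exp (V μ (2 * h) (toF β fun p => ω p x) (0, 0) n) := by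
        rw [hA] at hx
        exact not_lt.1 hx
      rw [← h3, div_le_iff₀ (Real.exp_pos _)]
      exact h4
  have hI1 : Integrable (A.indicator fun _ => (1 : ℝ)) P := (integrable_const (1 : ℝ)).indicator hAm
  have hI2 : Integrable (fun x => A.indicator (fun _ => (1 : ℝ)) x + ε / 2) P := hI1.add (integrable_const _)
  refine (integral_mono (forceP_integrable hmeas β h n _) hI2 h2).trans ?_
  have h3 : ∫ x, A.indicator (fun _ => (1 : ℝ)) x ∂P = P.real A := by
    rw [integral_indicator hAm]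
    simp [Measure.real]
  rw [integral_add hI1 (integrable_const _), h3, integral_const, probReal_univ, one_smul]
  linarith

/-- `E E^h_n |S_n - v n|^q` is at least of the order `w_n^q`. -/
theorem endM_P (hI : In μ (2 * h) c C n₀) (hmeas : ∀ p, Measurable (ω p))
    (hmp : MeasurePreserving (fun x => toF β fun p => ω p x) P (law μ)) (q : ℕ) :
    ∃ b : ℝ, 0 < b ∧ ∃ n₁ : ℕ, ∀ n, n₁ ≤ n →
      b * wth P β h ω (fun v => J μ (2 * h) (v / 2)) n ^ q ≤
        ∫ x, forceE β h (fun p => ω p x) n (fun s => |(walk s n : ℝ) - vel μ h * n| ^ q) ∂P := by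
  classical
  obtain ⟨c', hc', n₁, h1⟩ := endS_P (P := P) (β := β) hI hmeas hmp (ε := 1 / 2) (by norm_num)
  obtain ⟨a₁, A₁, b, B, -, -, hb, hB, n₂, hn₂, hsc⟩ := scales (P := P) (β := β) (ω := ω) hI hmp
  refine ⟨c' ^ q / 2, by positivity, max n₁ n₂, fun n hn => ?_⟩
  obtain ⟨-, -, hw1, hw2, hwd⟩ := hsc n ((le_max_right _ _).trans hn)
  have h2 := h1 n ((le_max_left _ _).trans hn)
  obtain ⟨w, hw⟩ : ∃ w : ℝ, w = wth P β h ω (fun v => J μ (2 * h) (v / 2)) n := ⟨_, rfl⟩
  rw [← hw] at h2 hw1 ⊢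
  have hw0 : 0 ≤ w := le_trans (mul_nonneg hb.le (by linarith)) hw1
  have h3 : ∀ x, (c' * w) ^ q * (1 - forceP β h (fun p => ω p x) n {s | |(walk s n : ℝ) - vel μ h * n| ≤ c' * w}) ≤
      forceE β h (fun p => ω p x) n (fun s => |(walk s n : ℝ) - vel μ h * n| ^ q) := by
    intro x
    rw [← forceE_ind, ← forceE_mul']
    refine forceE_mono' β h _ n fun s => ?_
    by_cases h4 : s ∈ {s : Fin n → Bool | |(walk s n : ℝ) - vel μ h * n| ≤ c' * w}
    · rw [if_pos h4, mul_zero]
      positivity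
    · rw [if_neg h4, mul_one]
      rw [Set.mem_ofPred_eq, not_le] at h4
      exact pow_le_pow_left₀ (by positivity) h4.le q
  have hI3 : Integrable (fun x => (c' * w) ^ q *
      (1 - forceP β h (fun p => ω p x) n {s | |(walk s n : ℝ) - vel μ h * n| ≤ c' * w})) P :=
    ((integrable_const (1 : ℝ)).sub (forceP_integrable hmeas β h n _)).const_mul _
  have h5 := integral_mono hI3 (forceE_integrable hmeas β h n _) h3
  refine le_trans ?_ h5
  rw [integral_const_mul, integral_sub (integrable_const _) (forceP_integrable hmeas β h n _), integral_const,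
    probReal_univ, one_smul, mul_pow]
  have h6 : (1 : ℝ) / 2 ≤ 1 - ∫ x, forceP β h (fun p => ω p x) n {s | |(walk s n : ℝ) - vel μ h * n| ≤ c' * w} ∂P := by
    linarith
  have h7 := mul_le_mul_of_nonneg_left h6 (show 0 ≤ c' ^ q * w ^ q by positivity)
  linarith

/-- `|S_n - v n|` is at most the maximum. -/
theorem abs_le_mx (v : ℝ) {n : ℕ} (s : Fin n → Bool) : |(walk s n : ℝ) - v * n| ≤ mx v s :=
  (mx_le_iff v s (mx v s)).1 le_rfl n le_rfl

/-- The moments of the end point are at most those of the maximum. -/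
theorem end_le_mx (hmeas : ∀ p, Measurable (ω p)) (β h v : ℝ) (n q : ℕ) :
    ∫ x, forceE β h (fun p => ω p x) n (fun s => |(walk s n : ℝ) - v * n| ^ q) ∂P ≤
      ∫ x, forceE β h (fun p => ω p x) n (fun s => mx v s ^ q) ∂P :=
  integral_mono (forceE_integrable hmeas β h n _) (forceE_integrable hmeas β h n _) fun _ =>
    forceE_mono' β h _ n fun s => pow_le_pow_left₀ (abs_nonneg _) (abs_le_mx v s) q

end Pool.Agent.W_7d29a1_HE
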