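import Pool.Agent.W_7d29a1_HL.SepDet

/-!
MP_7d29a1_pr: the end point of the polymer is spread at the scale `wd μ n`. Deterministic part (1): weights between positions
and the decomposition at the last visit of a line.
-/

namespace Pool.Agent.W_7d29a1_HE

open MeasureTheory ProbabilityTheory Filter Topology
open Pool.Agent.W_7d29a1_F Pool.Agent.W_7d29a1_HL

noncomputable section

variable {μ : Measure ℝ} [IsProbabilityMeasure μ] {s : ℝ}

/-- The weight of the paths in `R` from the position `x` in the row `t` to the position `u` in the row `t + n`. -/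
def wu (μ : Measure ℝ) (s : ℝ) (R : Set Pt) (η : Env) (t x : ℤ) (n : ℕ) (u : ℤ) : ℝ := WR μ s R η (t, x) n (u - x)

theorem wu_nonneg (R : Set Pt) (η : Env) (t x : ℤ) (n : ℕ) (u : ℤ) : 0 ≤ wu μ s R η t x n u := WR_nonneg _ _ _ _ _

theorem wu_off (R : Set Pt) (η : Env) {t x : ℤ} {n : ℕ} {u : ℤ} (h : ¬ (x ≤ u ∧ u ≤ x + n)) : wu μ s R η t x n u = 0 :=
  WR_off R η (t, x) (by omega)

theorem wu_mono {R R' : Set Pt} (h : R ⊆ R') (η : Env) (t x : ℤ) (n : ℕ) (u : ℤ) :
    wu μ s R η t x n u ≤ wu μ s R' η t x n u := WR_mono' h η _ _ _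

theorem wu_congr {R R' : Set Pt} (η : Env) (t x : ℤ) (n : ℕ) (u : ℤ)
    (h : ∀ p : Pt, t < p.1 → p.1 ≤ t + n → (p ∈ R ↔ p ∈ R')) : wu μ s R η t x n u = wu μ s R' η t x n u :=
  WR_congr' η (t, x) n _ h

theorem wu_zero (R : Set Pt) (η : Env) (t x u : ℤ) : wu μ s R η t x 0 u = if u = x then 1 else 0 := by
  unfold wu
  rw [WR_zero']
  show Real.exp (s * ((u - x : ℤ) : ℝ) - ((0 : ℕ) : ℝ) * lam μ s) * (if u - x = 0 then (1 : ℝ) else 0) = _
  by_cases h : u = x
  · rw [if_pos (by omega), if_pos h, h, sub_self]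
    simp
  · rw [if_neg (by omega), if_neg h, mul_zero]

theorem wu_succ (R : Set Pt) (η : Env) (t x : ℤ) (n : ℕ) (u : ℤ) :
    wu μ s R η t x (n + 1) u = R.indicator (fun p => Real.exp (η p - lam μ s)) (t + (n + 1), u) *
      (wu μ s R η t x n u + Real.exp s * wu μ s R η t x n (u - 1)) := by
  unfold wu
  rw [WR_zero', WR_zero', WR_zero']
  have h1 : Zr R η (t, x) (n + 1) (u - x) = R.indicator (fun p => Real.exp (η p)) (t + (n + 1), x + (u - x)) *
      (Zr R η (t, x) n (u - x) + Zr R η (t, x) n (u - x - 1)) := rfl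
  have e1 : x + (u - x) = u := by ring
  have e2 : u - 1 - x = u - x - 1 := by ring
  have e3 : Real.exp (s * ((u - x : ℤ) : ℝ) - ((n + 1 : ℕ) : ℝ) * lam μ s) =
      Real.exp (s * ((u - x : ℤ) : ℝ) - (n : ℝ) * lam μ s) * Real.exp (-lam μ s) := by
    rw [← Real.exp_add]
    congr 1
    push_cast
    ring
  have e5 : Real.exp (s * ((u - x : ℤ) : ℝ) - (n : ℝ) * lam μ s) =
      Real.exp s * Real.exp (s * ((u - x - 1 : ℤ) : ℝ) - (n : ℝ) * lam μ s) := by
    rw [← Real.exp_add]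
    congr 1
    push_cast
    ring
  have e4 : R.indicator (fun p => Real.exp (η p - lam μ s)) (t + (n + 1), u) =
      R.indicator (fun p => Real.exp (η p)) (t + (n + 1), u) * Real.exp (-lam μ s) := by
    by_cases h : ((t + (n + 1), u) : Pt) ∈ R
    · rw [Set.indicator_of_mem h, Set.indicator_of_mem h, ← Real.exp_add, sub_eq_add_neg]
    · rw [Set.indicator_of_notMem h, Set.indicator_of_notMem h, zero_mul]
  rw [h1, e1, e2, e3, e4, mul_add, mul_add, mul_add]
  congr 1
  · ring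
  · rw [e5]
    ring

/-- Chapman - Kolmogorov. -/
theorem wu_add (R : Set Pt) (η : Env) (t x : ℤ) (m n : ℕ) (y : ℤ) {A B : ℤ} (hA : A ≤ x) (hB : x + m ≤ B) :
    wu μ s R η t x (m + n) y = ∑ u ∈ Finset.Icc A B, wu μ s R η t x m u * wu μ s R η (t + m) u n y :=
  WR_add' R η t x m n y hA hB

theorem wu_mul_le (R : Set Pt) (η : Env) (t x : ℤ) (m n : ℕ) (u y : ℤ) :
    wu μ s R η t x m u * wu μ s R η (t + m) u n y ≤ wu μ s R η t x (m + n) y := by
  rw [wu_add R η t x m n y (A := min x u) (B := max (x + m) u) (min_le_left _ _) (le_max_left _ _)]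
  exact Finset.single_le_sum (f := fun u => wu μ s R η t x m u * wu μ s R η (t + m) u n y)
    (fun v _ => mul_nonneg (wu_nonneg _ _ _ _ _ _) (wu_nonneg _ _ _ _ _ _))
    (Finset.mem_Icc.2 ⟨min_le_right _ _, le_max_right _ _⟩)

/-- Planarity. -/
theorem wu_tp2 (R : Set Pt) (η : Env) (t : ℤ) {x x' : ℤ} (n : ℕ) {y y' : ℤ} (hx : x ≤ x') (hy : y ≤ y') :
    wu μ s R η t x n y' * wu μ s R η t x' n y ≤ wu μ s R η t x n y * wu μ s R η t x' n y' :=
  WR_tp2 R η t x x' n y y' hx hy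

theorem wu_le_V (R : Set Pt) (η : Env) (t x : ℤ) (n : ℕ) (u : ℤ) : wu μ s R η t x n u ≤ Real.exp (V μ s η (t, x) n) := by
  refine (wu_mono (Set.subset_univ R) η t x n u).trans ?_
  by_cases h : 0 ≤ u - x ∧ u - x ≤ n
  · rw [exp_V]
    exact Finset.single_le_sum (f := fun y : ℤ => W μ s η (t, x) n y) (fun y _ => W_nonneg _ _ _ _) (Finset.mem_Icc.2 h)
  · rw [wu_off _ _ (by omega)]
    exact (Real.exp_pos _).le

theorem wu_mul_V (η : Env) (t x : ℤ) (m n : ℕ) (u : ℤ) :
    wu μ s Set.univ η t x m u * Real.exp (V μ s η (t + m, u) n) ≤ Real.exp (V μ s η (t, x) (m + n)) :=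
  W_expV_le η t x m n u

/-- The decomposition at the last row in which the path is on the line or to the right of it. -/
theorem line_last {l : ℤ → ℤ} (hl' : ∀ t, l (t + 1) ≤ l t + 1) (η : Env) (t v : ℤ) :
    ∀ (n : ℕ) (u : ℤ), u ≤ l (t + n) → wu μ s Set.univ η t v n u ≤ wu μ s (Lw l) η t v n u +
      ∑ k ∈ Finset.range n, wu μ s Set.univ η t v (k + 1) (l (t + (k + 1))) *
        wu μ s (Lw l) η (t + (k + 1)) (l (t + (k + 1))) (n - (k + 1)) u := by
  intro n
  induction n with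
  | zero =>
    intro u _
    rw [Finset.range_zero, Finset.sum_empty, add_zero, wu_zero, wu_zero]
  | succ n ih =>
    intro u hu
    have hpos : ∀ k ∈ Finset.range (n + 1), 0 ≤ wu μ s Set.univ η t v (k + 1) (l (t + (k + 1))) *
        wu μ s (Lw l) η (t + (k + 1)) (l (t + (k + 1))) (n + 1 - (k + 1)) u := fun k _ =>
      mul_nonneg (wu_nonneg _ _ _ _ _ _) (wu_nonneg _ _ _ _ _ _)
    rcases le_or_gt u (l (t + n)) with h1 | h1
    · -- both predecessors are at the left of the line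
      rcases Nat.eq_zero_or_pos n with h0 | h0
      · subst h0
        have h2 : wu μ s Set.univ η t v (0 + 1) u = wu μ s (Lw l) η t v (0 + 1) u := by
          rw [wu_succ, wu_succ, wu_zero, wu_zero, wu_zero, wu_zero]
          congr 1
          rw [Set.indicator_of_mem (Set.mem_univ _), Set.indicator_of_mem]
          show u ≤ l (t + (((0 : ℕ) : ℤ) + 1))
          have : t + (((0 : ℕ) : ℤ) + 1) = t + ((0 + 1 : ℕ) : ℤ) := by push_cast; ring
          rw [this]
          exact hu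
        rw [h2]
        linarith [Finset.sum_nonneg hpos]
      · have i1 := ih u h1
        have i2 := ih (u - 1) (by omega)
        obtain ⟨g, hg⟩ : ∃ g : ℤ → ℝ, g = fun u => ∑ k ∈ Finset.range n, wu μ s Set.univ η t v (k + 1) (l (t + (k + 1))) *
          wu μ s (Lw l) η (t + (k + 1)) (l (t + (k + 1))) (n - (k + 1)) u := ⟨_, rfl⟩
        have i1' : wu μ s Set.univ η t v n u ≤ wu μ s (Lw l) η t v n u + g u := by rw [hg]; exact i1
        have i2' : wu μ s Set.univ η t v n (u - 1) ≤ wu μ s (Lw l) η t v n (u - 1) + g (u - 1) := by rw [hg]; exact i2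
        have hmem : ((t + ((n : ℤ) + 1), u) : Pt) ∈ Lw l := by
          show u ≤ l (t + ((n : ℤ) + 1))
          have : t + ((n : ℤ) + 1) = t + ((n + 1 : ℕ) : ℤ) := by push_cast; ring
          rw [this]
          exact hu
        have hsum : ∑ k ∈ Finset.range n, wu μ s Set.univ η t v (k + 1) (l (t + (k + 1))) *
            wu μ s (Lw l) η (t + (k + 1)) (l (t + (k + 1))) (n + 1 - (k + 1)) u =
            Real.exp (η (t + ((n : ℤ) + 1), u) - lam μ s) * (g u + Real.exp s * g (u - 1)) := by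
          rw [hg, Finset.mul_sum, ← Finset.sum_add_distrib, Finset.mul_sum]
          refine Finset.sum_congr rfl fun k hk => ?_
          rw [Finset.mem_range] at hk
          have e1 : n + 1 - (k + 1) = (n - (k + 1)) + 1 := by omega
          have e2 : t + ((k : ℤ) + 1) + (((n - (k + 1) : ℕ) : ℤ) + 1) = t + ((n : ℤ) + 1) := by
            have : ((n - (k + 1) : ℕ) : ℤ) = (n : ℤ) - (k + 1) := by omega
            rw [this]
            ring
          rw [e1, wu_succ (Lw l) η (t + ((k : ℤ) + 1)) _ (n - (k + 1)) u, e2, Set.indicator_of_mem hmem]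
          ring
        rw [Finset.sum_range_succ, hsum, wu_succ, wu_succ, Set.indicator_of_mem (Set.mem_univ _),
          Set.indicator_of_mem hmem]
        have h3 : 0 ≤ Real.exp (η (t + ((n : ℤ) + 1), u) - lam μ s) := (Real.exp_pos _).le
        have h4 := mul_le_mul_of_nonneg_left (add_le_add i1' (mul_le_mul_of_nonneg_left i2' (Real.exp_pos s).le)) h3
        have h5 := hpos n (Finset.self_mem_range_succ n)
        have h6 : Real.exp (η (t + ((n : ℤ) + 1), u) - lam μ s) *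
            (wu μ s (Lw l) η t v n u + g u + Real.exp s * (wu μ s (Lw l) η t v n (u - 1) + g (u - 1))) =
            Real.exp (η (t + ((n : ℤ) + 1), u) - lam μ s) *
              (wu μ s (Lw l) η t v n u + Real.exp s * wu μ s (Lw l) η t v n (u - 1)) +
            Real.exp (η (t + ((n : ℤ) + 1), u) - lam μ s) * (g u + Real.exp s * g (u - 1)) := by ring
        linarith
    · -- the end point is on the line
      have h2 := hl' (t + n)
      have e1 : t + (n : ℤ) + 1 = t + ((n + 1 : ℕ) : ℤ) := by push_cast; ring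
      rw [e1] at h2
      have h3 : u = l (t + ((n : ℤ) + 1)) := by
        have e2 : t + ((n : ℤ) + 1) = t + ((n + 1 : ℕ) : ℤ) := by push_cast; ring
        rw [e2]
        omega
      have h4 := Finset.single_le_sum (f := fun k : ℕ => wu μ s Set.univ η t v (k + 1) (l (t + ((k : ℤ) + 1))) *
        wu μ s (Lw l) η (t + ((k : ℤ) + 1)) (l (t + ((k : ℤ) + 1))) (n + 1 - (k + 1)) u) hpos (Finset.self_mem_range_succ n)
      rw [← h3, Nat.sub_self, wu_zero, if_pos rfl, mul_one] at h4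
      have h5 := wu_nonneg (μ := μ) (s := s) (Lw l) η t v (n + 1) u
      linarith

/-- A sum over intermediate positions. -/
theorem wu_sum_le (R : Set Pt) (η : Env) (t x : ℤ) (m n : ℕ) (y : ℤ) (S : Finset ℤ) :
    ∑ u ∈ S, wu μ s R η t x m u * wu μ s R η (t + m) u n y ≤ wu μ s R η t x (m + n) y := by
  classical
  have h1 : ∑ u ∈ S, wu μ s R η t x m u * wu μ s R η (t + m) u n y =
      ∑ u ∈ S.filter (fun u => x ≤ u ∧ u ≤ x + m), wu μ s R η t x m u * wu μ s R η (t + m) u n y := by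
    rw [Finset.sum_filter]
    refine Finset.sum_congr rfl fun u _ => ?_
    split_ifs with h
    · rfl
    · rw [wu_off R η h, zero_mul]
  rw [h1, wu_add R η t x m n y (A := x) (B := x + m) le_rfl le_rfl]
  refine Finset.sum_le_sum_of_subset_of_nonneg (fun u hu => ?_) fun u _ _ =>
    mul_nonneg (wu_nonneg _ _ _ _ _ _) (wu_nonneg _ _ _ _ _ _)
  rw [Finset.mem_filter] at hu
  exact Finset.mem_Icc.2 hu.2

theorem wu_Lw_zero {l : ℤ → ℤ} (hl' : ∀ t, l (t + 1) ≤ l t + 1) (η : Env) {t v : ℤ} (hv : l t + 1 < v) {n : ℕ}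
    (hn : 1 ≤ n) (u : ℤ) : wu μ s (Lw l) η t v n u = 0 := by
  obtain ⟨k, rfl⟩ : ∃ k, n = 1 + k := ⟨n - 1, by omega⟩
  rw [wu_add (Lw l) η t v 1 k u (A := v) (B := v + (1 : ℕ)) le_rfl le_rfl]
  refine Finset.sum_eq_zero fun u' hu' => ?_
  rw [Finset.mem_Icc] at hu'
  have h1 : wu μ s (Lw l) η t v 1 u' = 0 := by
    have h2 := wu_succ (μ := μ) (s := s) (Lw l) η t v 0 u'
    rw [zero_add] at h2
    rw [h2, Set.indicator_of_notMem, zero_mul]
    intro h3
    have h4 : u' ≤ l (t + (((0 : ℕ) : ℤ) + 1)) := h3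
    have h5 : t + (((0 : ℕ) : ℤ) + 1) = t + 1 := by simp
    rw [h5] at h4
    have := hl' t
    omega
  rw [h1, zero_mul]

/-- The region of the avoiding paths: at the left of the line in the rows `(t₁, t₂]`. -/
def Rq (l : ℤ → ℤ) (t₁ t₂ : ℤ) : Set Pt := {p | p.1 ≤ t₁ ∨ t₂ < p.1 ∨ p.2 ≤ l p.1}

theorem Lw_Rq {l : ℤ → ℤ} {t₁ : ℤ} {d₂ : ℕ} (η : Env) (x : ℤ) (k : ℕ) (hk : k ≤ d₂) (u : ℤ) :
    wu μ s (Lw l) η t₁ x k u = wu μ s (Rq l t₁ (t₁ + d₂)) η t₁ x k u := by
  refine wu_congr η t₁ x k u fun p h1 h2 => ⟨fun h => Or.inr (Or.inr h), fun h => ?_⟩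
  rcases h with h | h | h
  · omega
  · omega
  · exact h

theorem univ_Rq1 {l : ℤ → ℤ} {t₀ t₁ t₂ : ℤ} (η : Env) (x : ℤ) (k : ℕ) (hk : t₀ + k ≤ t₁) (u : ℤ) :
    wu μ s Set.univ η t₀ x k u = wu μ s (Rq l t₁ t₂) η t₀ x k u :=
  wu_congr η t₀ x k u fun _ _ h2 => ⟨fun _ => Or.inl (by omega), fun _ => trivial⟩

theorem univ_Rq2 {l : ℤ → ℤ} {t₁ t₂ : ℤ} (η : Env) (x : ℤ) (k : ℕ) (u : ℤ) :
    wu μ s Set.univ η t₂ x k u = wu μ s (Rq l t₁ t₂) η t₂ x k u :=
  wu_congr η t₂ x k u fun _ h1 _ => ⟨fun _ => Or.inr (Or.inl h1), fun _ => trivial⟩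

end

end Pool.Agent.W_7d29a1_HE
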