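import Pool.Agent.W_7d29a1_HE.Ea

/-!
MP_7d29a1_pr: the end point of the polymer is spread at the scale `wd μ n`. Deterministic part (2): the comparison at one
scale.
-/

namespace Pool.Agent.W_7d29a1_HE

open MeasureTheory ProbabilityTheory Filter Topology
open Pool.Agent.W_7d29a1_F Pool.Agent.W_7d29a1_HL

noncomputable section

variable {μ : Measure ℝ} [IsProbabilityMeasure μ] {s : ℝ}

theorem wu_last_off {R : Set Pt} (η : Env) (t x : ℤ) {n : ℕ} (hn : 1 ≤ n) {u : ℤ} (h : ((t + n, u) : Pt) ∉ R) :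
    wu μ s R η t x n u = 0 := by
  refine WR_last_off η (t, x) hn ?_
  have : x + (u - x) = u := by ring
  simpa [this] using h

/-- The exchange of the tails of two paths. -/
theorem wu_sw (R : Set Pt) (η : Env) (t x1 : ℤ) (j k2 : ℕ) (hj : 1 ≤ j) {z u x2 : ℤ} (hu : u ≤ x2)
    (hR : ∀ w : ℤ, ((t + j, w) : Pt) ∈ R → w ≤ z) :
    wu μ s R η t x1 (j + k2) x2 * wu μ s R η (t + j) z k2 u ≤
      wu μ s R η t x1 (j + k2) u * wu μ s R η (t + j) z k2 x2 := by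
  rw [wu_add R η t x1 j k2 x2 (A := x1) (B := x1 + j) le_rfl le_rfl,
    wu_add R η t x1 j k2 u (A := x1) (B := x1 + j) le_rfl le_rfl, Finset.sum_mul, Finset.sum_mul]
  refine Finset.sum_le_sum fun w _ => ?_
  by_cases hw : ((t + j, w) : Pt) ∈ R
  · have h1 := mul_le_mul_of_nonneg_left (wu_tp2 (μ := μ) (s := s) R η (t + j) k2 (hR w hw) hu)
      (wu_nonneg (μ := μ) (s := s) R η t x1 j w)
    calc _ = _ := by ring
      _ ≤ _ := h1
      _ = _ := by ring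
  · rw [wu_last_off η t x1 hj hw]
    simp

/-- The end at the right of `x2` in the row `t2`. -/
theorem end_A (η : Env) (r z : ℤ) (D2 d3 : ℕ) {x2 y y2 : ℤ} (hy2 : y ≤ y2)
    (hq2 : 0 < wu μ s Set.univ η (r + D2) x2 d3 y2) (S : Finset ℤ) (hS : ∀ u ∈ S, x2 ≤ u) :
    ∑ u ∈ S, wu μ s Set.univ η r z D2 u * wu μ s Set.univ η (r + D2) u d3 y ≤
      Real.exp (V μ s η (r, z) (D2 + d3)) *
        (wu μ s Set.univ η (r + D2) x2 d3 y / wu μ s Set.univ η (r + D2) x2 d3 y2) := by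
  obtain ⟨q, hq⟩ : ∃ q : ℝ, q = wu μ s Set.univ η (r + D2) x2 d3 y / wu μ s Set.univ η (r + D2) x2 d3 y2 := ⟨_, rfl⟩
  have hq0 : 0 ≤ q := by rw [hq]; exact div_nonneg (wu_nonneg _ _ _ _ _ _) hq2.le
  rw [← hq]
  have h1 : ∀ u ∈ S, wu μ s Set.univ η r z D2 u * wu μ s Set.univ η (r + D2) u d3 y ≤
      q * (wu μ s Set.univ η r z D2 u * wu μ s Set.univ η (r + D2) u d3 y2) := by
    intro u hu
    have h2 := wu_tp2 (μ := μ) (s := s) Set.univ η (r + D2) d3 (hS u hu) hy2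
    have h3 : wu μ s Set.univ η (r + D2) u d3 y ≤ q * wu μ s Set.univ η (r + D2) u d3 y2 := by
      rw [hq, div_mul_eq_mul_div, le_div_iff₀ hq2]
      linarith
    have h4 := mul_le_mul_of_nonneg_left h3 (wu_nonneg (μ := μ) (s := s) Set.univ η r z D2 u)
    linarith
  calc _ ≤ ∑ u ∈ S, q * (wu μ s Set.univ η r z D2 u * wu μ s Set.univ η (r + D2) u d3 y2) := Finset.sum_le_sum h1
    _ = q * ∑ u ∈ S, wu μ s Set.univ η r z D2 u * wu μ s Set.univ η (r + D2) u d3 y2 := by rw [Finset.mul_sum]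
    _ ≤ q * wu μ s Set.univ η r z (D2 + d3) y2 :=
        mul_le_mul_of_nonneg_left (wu_sum_le _ _ _ _ _ _ _ _) hq0
    _ ≤ q * Real.exp (V μ s η (r, z) (D2 + d3)) := mul_le_mul_of_nonneg_left (wu_le_V _ _ _ _ _ _) hq0
    _ = _ := mul_comm _ _

/-- The end of a path which has been on the line: one row. -/
theorem end_B1k {l : ℤ → ℤ} (η : Env) (t1 x1 : ℤ) (d2 d3 : ℕ) {x2 y : ℤ} (Q : Set Pt)
    (hQ1 : ∀ u, wu μ s (Lw l) η t1 x1 d2 u = wu μ s Q η t1 x1 d2 u)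
    (hQ2 : ∀ u, wu μ s Set.univ η (t1 + d2) u d3 y = wu μ s Q η (t1 + d2) u d3 y)
    (S : Finset ℤ) (hS : ∀ u ∈ S, u ≤ x2) (k : ℕ) (hk : k < d2) :
    wu μ s (Lw l) η t1 x1 d2 x2 * ∑ u ∈ S, wu μ s (Lw l) η (t1 + (k + 1)) (l (t1 + (k + 1))) (d2 - (k + 1)) u *
        wu μ s Set.univ η (t1 + d2) u d3 y ≤
      wu μ s (Lw l) η (t1 + (k + 1)) (l (t1 + (k + 1))) (d2 - (k + 1)) x2 * wu μ s Q η t1 x1 (d2 + d3) y := by
  have e1 : (k + 1) + (d2 - (k + 1)) = d2 := by omega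
  have h1 : ∀ u ∈ S, wu μ s (Lw l) η t1 x1 d2 x2 * (wu μ s (Lw l) η (t1 + (k + 1)) (l (t1 + (k + 1))) (d2 - (k + 1)) u *
      wu μ s Set.univ η (t1 + d2) u d3 y) ≤
      wu μ s (Lw l) η (t1 + (k + 1)) (l (t1 + (k + 1))) (d2 - (k + 1)) x2 *
        (wu μ s Q η t1 x1 d2 u * wu μ s Q η (t1 + d2) u d3 y) := by
    intro u hu
    have h2 := wu_sw (μ := μ) (s := s) (Lw l) η t1 x1 (k + 1) (d2 - (k + 1)) (by omega) (z := l (t1 + (k + 1))) (hS u hu)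
      (fun w hw => by
        have h3 : w ≤ l (t1 + ((k + 1 : ℕ) : ℤ)) := hw
        push_cast at h3
        exact h3)
    rw [e1] at h2
    push_cast at h2
    rw [← hQ1, ← hQ2]
    have h3 := mul_le_mul_of_nonneg_right h2 (wu_nonneg (μ := μ) (s := s) Set.univ η (t1 + d2) u d3 y)
    calc _ = _ := by ring
      _ ≤ _ := h3
      _ = _ := by ring
  rw [Finset.mul_sum]
  refine (Finset.sum_le_sum h1).trans ?_
  rw [← Finset.mul_sum]
  exact mul_le_mul_of_nonneg_left (wu_sum_le _ _ _ _ _ _ _ _) (wu_nonneg _ _ _ _ _ _)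

/-- The end of a path which has been on the line. -/
theorem end_B1 {l : ℤ → ℤ} (η : Env) (r z : ℤ) (D1 d2 d3 : ℕ) {t1 : ℤ} (ht1 : t1 = r + D1) {x1 x2 y : ℤ} (Q : Set Pt)
    (hQ1 : ∀ u, wu μ s (Lw l) η t1 x1 d2 u = wu μ s Q η t1 x1 d2 u)
    (hQ2 : ∀ u, wu μ s Set.univ η (t1 + d2) u d3 y = wu μ s Q η (t1 + d2) u d3 y)
    (hP : 0 < wu μ s (Lw l) η t1 x1 d2 x2)
    (S : Finset ℤ) (hS : ∀ u ∈ S, u ≤ x2) :
    ∑ k ∈ Finset.range d2, wu μ s Set.univ η r z (D1 + (k + 1)) (l (t1 + (k + 1))) *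
      ∑ u ∈ S, wu μ s (Lw l) η (t1 + (k + 1)) (l (t1 + (k + 1))) (d2 - (k + 1)) u *
        wu μ s Set.univ η (t1 + d2) u d3 y ≤
      Real.exp (V μ s η (r, z) (D1 + d2 + d3)) * (d2 * (wu μ s Q η t1 x1 (d2 + d3) y /
        (wu μ s (Lw l) η t1 x1 d2 x2 * Real.exp (V μ s η (t1 + d2, x2) d3)))) := by
  obtain ⟨a, ha⟩ : ∃ a : ℝ, a = wu μ s Q η t1 x1 (d2 + d3) y := ⟨_, rfl⟩
  obtain ⟨P, hPd⟩ : ∃ P : ℝ, P = wu μ s (Lw l) η t1 x1 d2 x2 := ⟨_, rfl⟩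
  have ha0 : 0 ≤ a := by rw [ha]; exact wu_nonneg _ _ _ _ _ _
  have hV2 : r + ((D1 + d2 : ℕ) : ℤ) = t1 + d2 := by rw [ht1]; push_cast; ring
  have hW : wu μ s Set.univ η r z (D1 + d2) x2 * Real.exp (V μ s η (t1 + d2, x2) d3) ≤
      Real.exp (V μ s η (r, z) (D1 + d2 + d3)) := by
    have h1 := wu_mul_V (μ := μ) (s := s) η r z (D1 + d2) d3 x2
    rw [hV2] at h1
    exact h1
  have hk : ∀ k ∈ Finset.range d2, wu μ s Set.univ η r z (D1 + (k + 1)) (l (t1 + (k + 1))) *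
      ∑ u ∈ S, wu μ s (Lw l) η (t1 + (k + 1)) (l (t1 + (k + 1))) (d2 - (k + 1)) u *
        wu μ s Set.univ η (t1 + d2) u d3 y ≤ wu μ s Set.univ η r z (D1 + d2) x2 * (a / P) := by
    intro k hk
    rw [Finset.mem_range] at hk
    have h1 := end_B1k (μ := μ) (s := s) (l := l) η t1 x1 d2 d3 Q hQ1 hQ2 S hS k hk
    rw [← ha, ← hPd] at h1
    have h2 : ∑ u ∈ S, wu μ s (Lw l) η (t1 + (k + 1)) (l (t1 + (k + 1))) (d2 - (k + 1)) u *
        wu μ s Set.univ η (t1 + d2) u d3 y ≤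
        wu μ s (Lw l) η (t1 + (k + 1)) (l (t1 + (k + 1))) (d2 - (k + 1)) x2 * (a / P) := by
      rw [← mul_div_assoc, le_div_iff₀ (by rw [hPd]; exact hP)]
      linarith
    have h3 := mul_le_mul_of_nonneg_left h2 (wu_nonneg (μ := μ) (s := s) Set.univ η r z (D1 + (k + 1)) (l (t1 + (k + 1))))
    refine h3.trans ?_
    have h4 : wu μ s Set.univ η r z (D1 + (k + 1)) (l (t1 + (k + 1))) *
        wu μ s (Lw l) η (t1 + (k + 1)) (l (t1 + (k + 1))) (d2 - (k + 1)) x2 ≤ wu μ s Set.univ η r z (D1 + d2) x2 := by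
      have h5 := wu_mul_le (μ := μ) (s := s) Set.univ η r z (D1 + (k + 1)) (d2 - (k + 1)) (l (t1 + (k + 1))) x2
      have e1 : D1 + (k + 1) + (d2 - (k + 1)) = D1 + d2 := by omega
      have e2 : r + ((D1 + (k + 1) : ℕ) : ℤ) = t1 + (k + 1) := by rw [ht1]; push_cast; ring
      rw [e1, e2] at h5
      exact (mul_le_mul_of_nonneg_left (wu_mono (Set.subset_univ _) _ _ _ _ _) (wu_nonneg _ _ _ _ _ _)).trans h5
    have h6 : 0 ≤ a / P := div_nonneg ha0 (by rw [hPd]; exact hP.le)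
    calc _ = _ := by ring
      _ ≤ _ := mul_le_mul_of_nonneg_right h4 h6
  refine (Finset.sum_le_sum hk).trans ?_
  rw [Finset.sum_const, Finset.card_range, nsmul_eq_mul, ← ha, ← hPd]
  obtain ⟨E, hE⟩ : ∃ E : ℝ, E = Real.exp (V μ s η (t1 + d2, x2) d3) := ⟨_, rfl⟩
  have hE0 : 0 < E := by rw [hE]; exact Real.exp_pos _
  rw [← hE] at hW ⊢
  have hP0 : 0 < P := by rw [hPd]; exact hP
  have h7 : wu μ s Set.univ η r z (D1 + d2) x2 ≤ Real.exp (V μ s η (r, z) (D1 + d2 + d3)) / E := by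
    rw [le_div_iff₀ hE0]
    exact hW
  have h8 : 0 ≤ (d2 : ℝ) * (a / P) := by positivity
  calc (d2 : ℝ) * (wu μ s Set.univ η r z (D1 + d2) x2 * (a / P)) =
      wu μ s Set.univ η r z (D1 + d2) x2 * ((d2 : ℝ) * (a / P)) := by ring
    _ ≤ Real.exp (V μ s η (r, z) (D1 + d2 + d3)) / E * ((d2 : ℝ) * (a / P)) := mul_le_mul_of_nonneg_right h7 h8
    _ = _ := by field_simp

/-- The avoiding part. -/
theorem end_B2 {l : ℤ → ℤ} (hl' : ∀ t, l (t + 1) ≤ l t + 1) (η : Env) (r z : ℤ) (d0 d1 d2 d3 : ℕ) (hd2 : 1 ≤ d2)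
    {t0 t1 t2 : ℤ} (ht0 : t0 = r + d0) (ht1 : t1 = t0 + d1) (ht2 : t2 = t1 + d2) {x0 xT y ym : ℤ} (hy1 : ym ≤ y)
    (hxT : l t1 + 1 ≤ xT) (hqm : 0 < wu μ s (Rq l t1 t2) η t0 x0 (d1 + (d2 + d3)) ym)
    (hz : 0 < wu μ s Set.univ η t0 x0 d1 xT) (S : Finset ℤ) :
    ∑ u ∈ S, (∑ v ∈ Finset.Icc z (z + ((d0 + d1 : ℕ) : ℤ)), wu μ s Set.univ η r z (d0 + d1) v * wu μ s (Lw l) η t1 v d2 u) *
        wu μ s Set.univ η t2 u d3 y ≤
      Real.exp (V μ s η (r, z) (d0 + d1 + d2 + d3)) *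
        (wu μ s (Rq l t1 t2) η t0 x0 (d1 + (d2 + d3)) y / wu μ s (Rq l t1 t2) η t0 x0 (d1 + (d2 + d3)) ym) +
      wu μ s Set.univ η r z (d0 + d1) xT *
        (wu μ s (Rq l t1 t2) η t0 x0 (d1 + (d2 + d3)) y / wu μ s Set.univ η t0 x0 d1 xT) := by
  obtain ⟨Q, hQ⟩ : ∃ Q : Set Pt, Q = Rq l t1 t2 := ⟨_, rfl⟩
  rw [← hQ] at hqm ⊢
  obtain ⟨a, ha⟩ : ∃ a : ℝ, a = wu μ s Q η t0 x0 (d1 + (d2 + d3)) y := ⟨_, rfl⟩
  have ha0 : 0 ≤ a := by rw [ha]; exact wu_nonneg _ _ _ _ _ _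
  -- the weight of the avoiding paths from `v`
  obtain ⟨H, hH⟩ : ∃ H : ℤ → ℝ, H = fun v => wu μ s Q η t1 v (d2 + d3) y := ⟨_, rfl⟩
  have hH0 : ∀ v, 0 ≤ H v := fun v => by rw [hH]; exact wu_nonneg _ _ _ _ _ _
  have hLQ : ∀ v u, wu μ s (Lw l) η t1 v d2 u = wu μ s Q η t1 v d2 u := fun v u => by
    rw [hQ, ht2]
    exact Lw_Rq η v d2 le_rfl u
  have hUQ : ∀ u, wu μ s Set.univ η t2 u d3 y = wu μ s Q η t2 u d3 y := fun u => by
    rw [hQ]
    exact univ_Rq2 η u d3 y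
  have hHge : ∀ v, ∑ u ∈ S, wu μ s (Lw l) η t1 v d2 u * wu μ s Set.univ η t2 u d3 y ≤ H v := by
    intro v
    have h1 := wu_sum_le (μ := μ) (s := s) Q η t1 v d2 d3 y S
    rw [← ht2] at h1
    rw [hH]
    refine le_trans (le_of_eq (Finset.sum_congr rfl fun u _ => ?_)) h1
    rw [hLQ, hUQ]
  have hHz : ∀ v, l t1 + 1 < v → H v = 0 := by
    intro v hv
    rw [hH]
    show wu μ s Q η t1 v (d2 + d3) y = 0
    rw [wu_add Q η t1 v d2 d3 y (A := v) (B := v + d2) le_rfl le_rfl]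
    refine Finset.sum_eq_zero fun u _ => ?_
    rw [← hLQ, wu_Lw_zero hl' η hv hd2, zero_mul]
  -- the decomposition at the row `t0`
  have e0 : r + (d0 : ℤ) = t0 := ht0.symm
  have hC : ∀ v, wu μ s Set.univ η r z (d0 + d1) v =
      ∑ x ∈ Finset.Icc z (z + d0), wu μ s Set.univ η r z d0 x * wu μ s Set.univ η t0 x d1 v := by
    intro v
    have h1 := wu_add (μ := μ) (s := s) Set.univ η r z d0 d1 v (A := z) (B := z + d0) le_rfl le_rfl
    rw [e0] at h1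
    exact h1
  obtain ⟨I, hI⟩ : ∃ I : Finset ℤ, I = Finset.Icc z (z + ((d0 + d1 : ℕ) : ℤ)) := ⟨_, rfl⟩
  rw [← hI]
  have hsum : ∑ u ∈ S, (∑ v ∈ I, wu μ s Set.univ η r z (d0 + d1) v * wu μ s (Lw l) η t1 v d2 u) *
      wu μ s Set.univ η t2 u d3 y ≤ ∑ v ∈ I, wu μ s Set.univ η r z (d0 + d1) v * H v := by
    have h1 : ∑ u ∈ S, (∑ v ∈ I, wu μ s Set.univ η r z (d0 + d1) v * wu μ s (Lw l) η t1 v d2 u) *
        wu μ s Set.univ η t2 u d3 y = ∑ v ∈ I, wu μ s Set.univ η r z (d0 + d1) v *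
          ∑ u ∈ S, wu μ s (Lw l) η t1 v d2 u * wu μ s Set.univ η t2 u d3 y := by
      have h2 : ∀ u ∈ S, (∑ v ∈ I, wu μ s Set.univ η r z (d0 + d1) v * wu μ s (Lw l) η t1 v d2 u) *
          wu μ s Set.univ η t2 u d3 y = ∑ v ∈ I, wu μ s Set.univ η r z (d0 + d1) v * (wu μ s (Lw l) η t1 v d2 u *
            wu μ s Set.univ η t2 u d3 y) := fun u _ => by
        rw [Finset.sum_mul]
        exact Finset.sum_congr rfl fun v _ => by ring
      rw [Finset.sum_congr rfl h2, Finset.sum_comm]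
      exact Finset.sum_congr rfl fun v _ => by rw [Finset.mul_sum]
    rw [h1]
    exact Finset.sum_le_sum fun v _ => mul_le_mul_of_nonneg_left (hHge v) (wu_nonneg _ _ _ _ _ _)
  refine hsum.trans ?_
  have hsw : ∑ v ∈ I, wu μ s Set.univ η r z (d0 + d1) v * H v =
      ∑ x ∈ Finset.Icc z (z + d0), wu μ s Set.univ η r z d0 x * ∑ v ∈ I, wu μ s Set.univ η t0 x d1 v * H v := by
    have h2 : ∀ v ∈ I, wu μ s Set.univ η r z (d0 + d1) v * H v =
        ∑ x ∈ Finset.Icc z (z + d0), wu μ s Set.univ η r z d0 x * (wu μ s Set.univ η t0 x d1 v * H v) := fun v _ => by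
      rw [hC, Finset.sum_mul]
      exact Finset.sum_congr rfl fun x _ => by ring
    rw [Finset.sum_congr rfl h2, Finset.sum_comm]
    exact Finset.sum_congr rfl fun x _ => by rw [Finset.mul_sum]
  rw [hsw]
  -- the weights from the row `t0`
  have hxQ : ∀ x : ℤ, ∀ J : Finset ℤ, ∑ v ∈ J, wu μ s Set.univ η t0 x d1 v * H v ≤ wu μ s Q η t0 x (d1 + (d2 + d3)) y := by
    intro x J
    have h1 := wu_sum_le (μ := μ) (s := s) Q η t0 x d1 (d2 + d3) y J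
    rw [← ht1] at h1
    rw [hH]
    refine le_trans (le_of_eq (Finset.sum_congr rfl fun v _ => ?_)) h1
    congr 1
    rw [hQ]
    exact univ_Rq1 η x d1 (by rw [ht1]) v
  have hx1 : ∀ x : ℤ, x ≤ x0 → ∑ v ∈ I, wu μ s Set.univ η t0 x d1 v * H v ≤
      a / wu μ s Q η t0 x0 (d1 + (d2 + d3)) ym * wu μ s Q η t0 x (d1 + (d2 + d3)) ym := by
    intro x hx
    refine (hxQ x I).trans ?_
    have h2 := wu_tp2 (μ := μ) (s := s) Q η t0 (d1 + (d2 + d3)) hx hy1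
    rw [div_mul_eq_mul_div, le_div_iff₀ hqm, ha]
    linarith
  have hx2 : ∀ x : ℤ, x0 ≤ x → ∑ v ∈ I, wu μ s Set.univ η t0 x d1 v * H v ≤
      a / wu μ s Set.univ η t0 x0 d1 xT * wu μ s Set.univ η t0 x d1 xT := by
    intro x hx
    have h1 : ∀ v ∈ I, wu μ s Set.univ η t0 x d1 v * H v ≤
        wu μ s Set.univ η t0 x d1 xT / wu μ s Set.univ η t0 x0 d1 xT * (wu μ s Set.univ η t0 x0 d1 v * H v) := by
      intro v _
      rcases le_or_gt v (l t1 + 1) with h3 | h3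
      · have h4 := wu_tp2 (μ := μ) (s := s) Set.univ η t0 d1 hx (h3.trans hxT)
        have h5 : wu μ s Set.univ η t0 x d1 v ≤
            wu μ s Set.univ η t0 x d1 xT / wu μ s Set.univ η t0 x0 d1 xT * wu μ s Set.univ η t0 x0 d1 v := by
          rw [div_mul_eq_mul_div, le_div_iff₀ hz]
          linarith
        have h6 := mul_le_mul_of_nonneg_right h5 (hH0 v)
        linarith
      · rw [hHz v h3]
        simp
    refine (Finset.sum_le_sum h1).trans ?_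
    rw [← Finset.mul_sum]
    have h7 := mul_le_mul_of_nonneg_left (hxQ x0 I)
      (div_nonneg (wu_nonneg (μ := μ) (s := s) Set.univ η t0 x d1 xT) hz.le)
    rw [← ha] at h7
    refine h7.trans (le_of_eq ?_)
    ring
  -- the two parts
  have hpt : ∀ x ∈ Finset.Icc z (z + d0), wu μ s Set.univ η r z d0 x * ∑ v ∈ I, wu μ s Set.univ η t0 x d1 v * H v ≤
      a / wu μ s Q η t0 x0 (d1 + (d2 + d3)) ym * (wu μ s Set.univ η r z d0 x * wu μ s Set.univ η t0 x (d1 + (d2 + d3)) ym) +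
      a / wu μ s Set.univ η t0 x0 d1 xT * (wu μ s Set.univ η r z d0 x * wu μ s Set.univ η t0 x d1 xT) := by
    intro x _
    have hw0 := wu_nonneg (μ := μ) (s := s) Set.univ η r z d0 x
    have hq1 : 0 ≤ a / wu μ s Q η t0 x0 (d1 + (d2 + d3)) ym := div_nonneg ha0 hqm.le
    have hq2 : 0 ≤ a / wu μ s Set.univ η t0 x0 d1 xT := div_nonneg ha0 hz.le
    have hn1 : 0 ≤ a / wu μ s Q η t0 x0 (d1 + (d2 + d3)) ym *
        (wu μ s Set.univ η r z d0 x * wu μ s Set.univ η t0 x (d1 + (d2 + d3)) ym) :=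
      mul_nonneg hq1 (mul_nonneg hw0 (wu_nonneg _ _ _ _ _ _))
    have hn2 : 0 ≤ a / wu μ s Set.univ η t0 x0 d1 xT * (wu μ s Set.univ η r z d0 x * wu μ s Set.univ η t0 x d1 xT) :=
      mul_nonneg hq2 (mul_nonneg hw0 (wu_nonneg _ _ _ _ _ _))
    rcases le_total x x0 with h1 | h1
    · have h2 := mul_le_mul_of_nonneg_left ((hx1 x h1).trans (mul_le_mul_of_nonneg_left
        (wu_mono (Set.subset_univ Q) η t0 x (d1 + (d2 + d3)) ym) hq1)) hw0
      have e : wu μ s Set.univ η r z d0 x * (a / wu μ s Q η t0 x0 (d1 + (d2 + d3)) ym *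
        wu μ s Set.univ η t0 x (d1 + (d2 + d3)) ym) = a / wu μ s Q η t0 x0 (d1 + (d2 + d3)) ym *
        (wu μ s Set.univ η r z d0 x * wu μ s Set.univ η t0 x (d1 + (d2 + d3)) ym) := by ring
      rw [e] at h2
      linarith
    · have h2 := mul_le_mul_of_nonneg_left (hx2 x h1) hw0
      have e : wu μ s Set.univ η r z d0 x * (a / wu μ s Set.univ η t0 x0 d1 xT * wu μ s Set.univ η t0 x d1 xT) =
        a / wu μ s Set.univ η t0 x0 d1 xT * (wu μ s Set.univ η r z d0 x * wu μ s Set.univ η t0 x d1 xT) := by ring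
      rw [e] at h2
      linarith
  refine (Finset.sum_le_sum hpt).trans ?_
  rw [Finset.sum_add_distrib, ← Finset.mul_sum, ← Finset.mul_sum]
  have h1 := wu_sum_le (μ := μ) (s := s) Set.univ η r z d0 (d1 + (d2 + d3)) ym (Finset.Icc z (z + d0))
  rw [e0] at h1
  have h2 : wu μ s Set.univ η r z (d0 + (d1 + (d2 + d3))) ym ≤ Real.exp (V μ s η (r, z) (d0 + d1 + d2 + d3)) := by
    have h3 := wu_le_V (μ := μ) (s := s) Set.univ η r z (d0 + (d1 + (d2 + d3))) ym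
    have e : d0 + (d1 + (d2 + d3)) = d0 + d1 + d2 + d3 := by ring
    rw [e] at h3 ⊢
    exact h3
  have h4 := wu_sum_le (μ := μ) (s := s) Set.univ η r z d0 d1 xT (Finset.Icc z (z + d0))
  rw [e0] at h4
  have h5 := mul_le_mul_of_nonneg_left (h1.trans h2) (div_nonneg ha0 hqm.le)
  have h6 := mul_le_mul_of_nonneg_left h4 (div_nonneg ha0 hz.le)
  rw [← ha]
  linarith

/-- THE DETERMINISTIC COMPARISON. -/
theorem end_det {l : ℤ → ℤ} (hl' : ∀ t, l (t + 1) ≤ l t + 1) (η : Env) (r z : ℤ) (d0 d1 d2 d3 : ℕ) (hd2 : 1 ≤ d2)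
    {t0 t1 t2 : ℤ} (ht0 : t0 = r + d0) (ht1 : t1 = t0 + d1) (ht2 : t2 = t1 + d2) {x0 x1 x2 xT y ym y2 : ℤ}
    (hy1 : ym ≤ y) (hy2 : y ≤ y2) (hx2 : x2 ≤ l t2 + 1) (hxT : l t1 + 1 ≤ xT)
    (hq2 : 0 < wu μ s Set.univ η t2 x2 d3 y2) (hP : 0 < wu μ s (Lw l) η t1 x1 d2 x2)
    (hqm : 0 < wu μ s (Rq l t1 t2) η t0 x0 (d1 + (d2 + d3)) ym) (hz : 0 < wu μ s Set.univ η t0 x0 d1 xT) :
    wu μ s Set.univ η r z (d0 + d1 + d2 + d3) y ≤
      Real.exp (V μ s η (r, z) (d0 + d1 + d2 + d3)) *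
        (wu μ s Set.univ η t2 x2 d3 y / wu μ s Set.univ η t2 x2 d3 y2 +
          d2 * (wu μ s (Rq l t1 t2) η t1 x1 (d2 + d3) y /
            (wu μ s (Lw l) η t1 x1 d2 x2 * Real.exp (V μ s η (t2, x2) d3))) +
          wu μ s (Rq l t1 t2) η t0 x0 (d1 + (d2 + d3)) y / wu μ s (Rq l t1 t2) η t0 x0 (d1 + (d2 + d3)) ym) +
      wu μ s Set.univ η r z (d0 + d1) xT *
        (wu μ s (Rq l t1 t2) η t0 x0 (d1 + (d2 + d3)) y / wu μ s Set.univ η t0 x0 d1 xT) := by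
  classical
  have e1 : r + ((d0 + d1 : ℕ) : ℤ) = t1 := by rw [ht1, ht0]; push_cast; ring
  have e2 : r + ((d0 + d1 + d2 : ℕ) : ℤ) = t2 := by rw [ht2, ht1, ht0]; push_cast; ring
  obtain ⟨U, hU⟩ : ∃ U : Finset ℤ, U = Finset.Icc z (z + ((d0 + d1 + d2 : ℕ) : ℤ)) := ⟨_, rfl⟩
  have hsplit : wu μ s Set.univ η r z (d0 + d1 + d2 + d3) y =
      ∑ u ∈ U, wu μ s Set.univ η r z (d0 + d1 + d2) u * wu μ s Set.univ η t2 u d3 y := by
    have h1 := wu_add (μ := μ) (s := s) Set.univ η r z (d0 + d1 + d2) d3 y (A := z) (B := z + ((d0 + d1 + d2 : ℕ) : ℤ))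
      le_rfl le_rfl
    rw [e2, ← hU] at h1
    exact h1
  rw [hsplit, ← Finset.sum_filter_add_sum_filter_not U (fun u => x2 ≤ u)]
  -- the right part
  have hA := end_A (μ := μ) (s := s) η r z (d0 + d1 + d2) d3 (x2 := x2) hy2 (by rw [e2]; exact hq2)
    (U.filter fun u => x2 ≤ u) (fun u hu => (Finset.mem_filter.1 hu).2)
  rw [e2] at hA
  -- the left part
  obtain ⟨S, hS⟩ : ∃ S : Finset ℤ, S = U.filter fun u => ¬ x2 ≤ u := ⟨_, rfl⟩
  rw [← hS]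
  have hSx : ∀ u ∈ S, u < x2 := fun u hu => by
    rw [hS, Finset.mem_filter] at hu
    omega
  obtain ⟨I, hI⟩ : ∃ I : Finset ℤ, I = Finset.Icc z (z + ((d0 + d1 : ℕ) : ℤ)) := ⟨_, rfl⟩
  have hu : ∀ u ∈ S, wu μ s Set.univ η r z (d0 + d1 + d2) u * wu μ s Set.univ η t2 u d3 y ≤
      (∑ v ∈ I, wu μ s Set.univ η r z (d0 + d1) v * wu μ s (Lw l) η t1 v d2 u) * wu μ s Set.univ η t2 u d3 y +
      ∑ k ∈ Finset.range d2, wu μ s Set.univ η r z (d0 + d1 + (k + 1)) (l (t1 + (k + 1))) *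
        (wu μ s (Lw l) η (t1 + (k + 1)) (l (t1 + (k + 1))) (d2 - (k + 1)) u * wu μ s Set.univ η t2 u d3 y) := by
    intro u hu
    have h0 := hSx u hu
    have h1 := wu_add (μ := μ) (s := s) Set.univ η r z (d0 + d1) d2 u (A := z) (B := z + ((d0 + d1 : ℕ) : ℤ)) le_rfl le_rfl
    rw [e1, ← hI] at h1
    have h2 : wu μ s Set.univ η r z (d0 + d1 + d2) u ≤
        ∑ v ∈ I, wu μ s Set.univ η r z (d0 + d1) v * wu μ s (Lw l) η t1 v d2 u +
        ∑ k ∈ Finset.range d2, wu μ s Set.univ η r z (d0 + d1 + (k + 1)) (l (t1 + (k + 1))) *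
          wu μ s (Lw l) η (t1 + (k + 1)) (l (t1 + (k + 1))) (d2 - (k + 1)) u := by
      rw [h1]
      have h3 : ∀ v ∈ I, wu μ s Set.univ η r z (d0 + d1) v * wu μ s Set.univ η t1 v d2 u ≤
          wu μ s Set.univ η r z (d0 + d1) v * wu μ s (Lw l) η t1 v d2 u +
          ∑ k ∈ Finset.range d2, (wu μ s Set.univ η r z (d0 + d1) v *
            wu μ s Set.univ η t1 v (k + 1) (l (t1 + (k + 1)))) *
              wu μ s (Lw l) η (t1 + (k + 1)) (l (t1 + (k + 1))) (d2 - (k + 1)) u := by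
        intro v _
        have h4 := mul_le_mul_of_nonneg_left (line_last (μ := μ) (s := s) hl' η t1 v d2 u (by rw [← ht2]; omega))
          (wu_nonneg (μ := μ) (s := s) Set.univ η r z (d0 + d1) v)
        refine h4.trans (le_of_eq ?_)
        rw [mul_add, Finset.mul_sum]
        congr 1
        exact Finset.sum_congr rfl fun k _ => by ring
      refine (Finset.sum_le_sum h3).trans ?_
      rw [Finset.sum_add_distrib, Finset.sum_comm]
      refine add_le_add le_rfl (Finset.sum_le_sum fun k _ => ?_)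
      rw [← Finset.sum_mul]
      refine mul_le_mul_of_nonneg_right ?_ (wu_nonneg _ _ _ _ _ _)
      have h5 := wu_sum_le (μ := μ) (s := s) Set.univ η r z (d0 + d1) (k + 1) (l (t1 + (k + 1))) I
      rw [e1] at h5
      exact h5
    have h6 := mul_le_mul_of_nonneg_right h2 (wu_nonneg (μ := μ) (s := s) Set.univ η t2 u d3 y)
    refine h6.trans (le_of_eq ?_)
    rw [add_mul]
    congr 1
    rw [Finset.sum_mul]
    exact Finset.sum_congr rfl fun k _ => by ring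
  have hleft := Finset.sum_le_sum hu
  rw [Finset.sum_add_distrib, Finset.sum_comm (s := S)] at hleft
  have hB2 := end_B2 (μ := μ) (s := s) hl' η r z d0 d1 d2 d3 hd2 ht0 ht1 ht2 hy1 hxT hqm hz S
  rw [← hI] at hB2
  have hB1 := end_B1 (μ := μ) (s := s) (l := l) η r z (d0 + d1) d2 d3 (t1 := t1) e1.symm (x1 := x1) (x2 := x2) (y := y)
    (Rq l t1 t2) (fun u => by rw [ht2]; exact Lw_Rq η x1 d2 le_rfl u)
    (fun u => by rw [← ht2]; exact univ_Rq2 η u d3 y) hP S (fun u hu => (hSx u hu).le)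
  rw [← ht2] at hB1
  have hB1' : ∑ k ∈ Finset.range d2, ∑ u ∈ S, wu μ s Set.univ η r z (d0 + d1 + (k + 1)) (l (t1 + (k + 1))) *
        (wu μ s (Lw l) η (t1 + (k + 1)) (l (t1 + (k + 1))) (d2 - (k + 1)) u * wu μ s Set.univ η t2 u d3 y) =
      ∑ k ∈ Finset.range d2, wu μ s Set.univ η r z (d0 + d1 + (k + 1)) (l (t1 + (k + 1))) *
      ∑ u ∈ S, wu μ s (Lw l) η (t1 + (k + 1)) (l (t1 + (k + 1))) (d2 - (k + 1)) u *
        wu μ s Set.univ η t2 u d3 y := Finset.sum_congr rfl fun k _ => by rw [Finset.mul_sum]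
  rw [hB1'] at hleft
  have hfin : ∀ a b c' d E : ℝ, E * (a + b + c') + d = E * a + (E * b + (E * c' + d)) := fun a b c' d E => by ring
  rw [hfin]
  linarith

end

end Pool.Agent.W_7d29a1_HE
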