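import Pool.Agent.W_7d29a1_HE.Ec
import Pool.Agent.W_7d29a1_HX.X50_MomX

/-!
MP_7d29a1_pr, TRACK H, part 4 (model: `W_7d29a1_59E.Ec`, second half): the cost of the displacements of the order of the width.
-/

namespace Pool.Agent.W_7d29a1_HE

open MeasureTheory ProbabilityTheory Filter Topology
open Pool.Agent.W_7d29a1_F Pool.Agent.W_7d29a1_h4g Pool.Agent.W_7d29a1_H Pool.Agent.W_7d29a1_HS Pool.Agent.W_7d29a1_HL

noncomputable section

variable {μ : Measure ℝ} [IsProbabilityMeasure μ] {s c C : ℝ} {n₀ : ℕ}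

/-- Displacements of the order of the width: the cost is of the order of the unit. -/
theorem far_bd (h : In μ s c C n₀) {B : ℝ} (hB : 1 ≤ B) {ε : ℝ} (hε : 0 < ε) :
    ∃ b : ℝ, 0 < b ∧ ∃ n₁ : ℕ, ∀ r : ℕ, n₁ ≤ r → ∀ z : ℤ, |(z : ℝ) - sl μ s * r| ≤ B * wd μ s r →
      0 ≤ z ∧ z ≤ r ∧ ∀ a : Pt, (law μ).real {η | b * EE μ s r ≤ X μ s η a r z} ≤ ε := by
  obtain ⟨K, hK, n₁, hn₁, hP⟩ := price_le h hB
  obtain ⟨C₁, A, a, g, hC₁, hA, ha, hg, hg1, hU⟩ := Pool.Agent.W_7d29a1_HX.X50.unlucky_all h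
  -- the choice of `u`
  have hlim : Tendsto (fun u : ℝ => A * Real.exp (-(a * u ^ g))) atTop (𝓝 0) := by
    have h1 : Tendsto (fun u : ℝ => a * u ^ g) atTop atTop := (tendsto_rpow_atTop hg).const_mul_atTop ha
    have h2 := Real.tendsto_exp_neg_atTop_nhds_zero.comp h1
    have h3 := h2.const_mul A
    rw [mul_zero] at h3
    exact h3
  obtain ⟨u, hu0, hu⟩ := ((eventually_ge_atTop (0 : ℝ)).and (hlim.eventually (gt_mem_nhds hε))).exists
  refine ⟨C₁ * (1 + K) + u, by positivity, n₁, fun r hr z hz => ?_⟩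
  obtain ⟨h0, h1, h2⟩ := hP r hr z hz
  refine ⟨h0, h1, fun q => ?_⟩
  have hE := EE_pos (μ := μ) (s := s) r
  have h3 := hU r (hn₁.trans hr) z h0 h1 u hu0
  have h5 : (law μ).real {η | (C₁ * (1 + K) + u) * EE μ s r ≤ X μ s η q r z} ≤
      (law μ).real {η | (C₁ * (1 + K) + u) * EE μ s r ≤ max (X μ s η q r z) 0} :=
    measureReal_mono (fun η hη => by
      rw [Set.mem_ofPred_eq] at hη ⊢
      exact le_max_of_le_left hη) (measure_ne_top _ _)
  rw [Pool.Agent.W_7d29a1_HX.X50.real_X (μ := μ) (s := s) q r z ((C₁ * (1 + K) + u) * EE μ s r)] at h5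
  refine h5.trans ((measureReal_mono (fun η hη => ?_) (measure_ne_top _ _)).trans (h3.trans hu.le))
  rw [Set.mem_ofPred_eq] at hη ⊢
  have h6 : 0 < (C₁ * (1 + K) + u) * EE μ s r := by positivity
  have h7 : (C₁ * (1 + K) + u) * EE μ s r ≤ X μ s η 0 r z := by
    rcases le_max_iff.1 hη with h8 | h8
    · exact h8
    · linarith
  refine le_trans ?_ h7
  have h4 : C₁ * (EE μ s r + r * J μ s (((z : ℝ) - sl μ s * r) / r)) ≤ C₁ * (EE μ s r + K * EE μ s r) :=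
    mul_le_mul_of_nonneg_left (by linarith) hC₁.le
  linarith

/-- The mean cost of the displacements of the order of the width. -/
theorem far_mean (h : In μ s c C n₀) {B : ℝ} (hB : 1 ≤ B) :
    ∃ K : ℝ, 0 < K ∧ ∃ n₁ : ℕ, ∀ r : ℕ, n₁ ≤ r → ∀ z : ℤ, |(z : ℝ) - sl μ s * r| ≤ B * wd μ s r →
      0 ≤ z ∧ z ≤ r ∧ ep μ s r z ≤ K * EE μ s r := by
  obtain ⟨K, hK, n₁, hn₁, hP⟩ := price_le h hB
  obtain ⟨C₁, hC₁, hq⟩ := Pool.Agent.W_7d29a1_HX.X50.excess_pow h
  obtain ⟨K', hK', hx⟩ := hq 1 le_rfl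
  refine ⟨K' + C₁ * (1 + K), by positivity, n₁, fun r hr z hz => ?_⟩
  obtain ⟨h0, h1, h2⟩ := hP r hr z hz
  refine ⟨h0, h1, ?_⟩
  have hE := EE_pos (μ := μ) (s := s) r
  have h3 := hx r (hn₁.trans hr) z h0 h1
  obtain ⟨P, hPd⟩ : ∃ P : ℝ, P = C₁ * (EE μ s r + r * J μ s (((z : ℝ) - sl μ s * r) / r)) := ⟨_, rfl⟩
  have hp := mul_nonneg (Nat.cast_nonneg (α := ℝ) r) (h.rf.nn (((z : ℝ) - sl μ s * r) / r))
  have hP0 : 0 ≤ P := by rw [hPd]; positivity
  have hP1 : P ≤ C₁ * (1 + K) * EE μ s r := by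
    rw [hPd]
    have h4 : C₁ * (EE μ s r + r * J μ s (((z : ℝ) - sl μ s * r) / r)) ≤ C₁ * (EE μ s r + K * EE μ s r) :=
      mul_le_mul_of_nonneg_left (by linarith) hC₁.le
    linarith
  rw [← hPd] at h3
  have hS : Sub fun η : Env => max (X μ s η 0 r z - P) 0 := ((Sub_X _ h0 h1).sub (Sub.const P)).max (Sub.const 0)
  have hS2 : Sub fun η : Env => max (X μ s η 0 r z) 0 := (Sub_X _ h0 h1).max (Sub.const 0)
  have h5 : ep μ s r z ≤ ∫ η, (max (X μ s η 0 r z - P) 0 + P) ∂(law μ) := by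
    unfold ep
    refine integral_mono (hS2.integrable h.em) ((hS.integrable h.em).add (integrable_const _)) fun η => ?_
    refine max_le ?_ ?_
    · have := le_max_left (X μ s η 0 r z - P) 0
      linarith
    · have := le_max_right (X μ s η 0 r z - P) 0
      positivity
  rw [integral_add (hS.integrable h.em) (integrable_const _), integral_const, probReal_univ, one_smul] at h5
  simp only [pow_one] at h3
  linarith

end

end Pool.Agent.W_7d29a1_HE
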