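import Pool.Agent.W_7d29a1_HE.Ee
import Pool.Agent.W_7d29a1_59E.Ef

/-!
MP_7d29a1_pr, TRACK H, part 4: the end point of the polymer is spread at the scale `wd μ s n`, at the tilt `s`. (The case
`s = 0` is `W_7d29a1_59E.Eg`.)
-/

set_option autoImplicit false

namespace Pool.Agent.W_7d29a1_HE

open MeasureTheory ProbabilityTheory Filter Topology
open Pool.Agent.W_7d29a1_F Pool.Agent.W_7d29a1_h4g Pool.Agent.W_7d29a1_H Pool.Agent.W_7d29a1_HS Pool.Agent.W_7d29a1_HL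

noncomputable section

variable {μ : Measure ℝ} [IsProbabilityMeasure μ] {s c C : ℝ} {n₀ : ℕ}

/-- The sites of the tube. -/
def TT0 (μ : Measure ℝ) (s r : ℝ) (a : Pt) (l : ℕ) : Set Pt := St μ s r a ∩ rows a.1 (a.1 + l)

theorem LkS_meas (r : ℝ) (a : Pt) (l : ℕ) (κ : ℝ) : MeasurableSet (LkS μ s r a l κ) :=
  measurableSet_le measurable_const (measurable_cS _ a l).log

theorem LkS_dep (r : ℝ) (a : Pt) (l : ℕ) (κ : ℝ) (η η' : Env) (h : ∀ p ∈ TT0 μ s r a l, η p = η' p) :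
    η ∈ LkS μ s r a l κ ↔ η' ∈ LkS μ s r a l κ := by
  have h1 : cS μ s (St μ s r a) η a l = cS μ s (St μ s r a) η' a l := cS_dep (μ := μ) (s := s) (St μ s r a) a l h
  unfold LkS
  rw [Set.mem_ofPred_eq, Set.mem_ofPred_eq, h1]

/-- The tube is at the right of the line. -/
theorem TT0_disj {r : ℝ} {n g : ℕ} {y0 D F G : ℤ} (hG : r < G) :
    Disjoint (TT0 μ s r (aT μ s n g y0 D F G) (2 * g)) (Qg μ s n g y0 D F) := by
  rw [Set.disjoint_left]
  rintro p ⟨h1, h2⟩ h3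
  obtain ⟨h4, h5⟩ := h2
  have h4' : (n : ℤ) - 4 * g < p.1 := h4
  have h5' : p.1 ≤ (n : ℤ) - 4 * g + (2 * g : ℕ) := h5
  rcases h3 with h6 | h6 | h6
  · omega
  · push_cast at h5'
    omega
  · have h7 : |((p.2 - (y0 - 2 * md μ s (2 * g) + D + F + G) : ℤ) : ℝ) - sl μ s * ((p.1 - ((n : ℤ) - 4 * g) : ℤ) : ℝ)| ≤ r :=
      h1
    have h8 := (abs_le.1 h7).1
    have h9 : (p.2 : ℝ) ≤ (ln μ s n g y0 D F p.1 : ℤ) := by exact_mod_cast h6
    have h10 := ln_le (μ := μ) (s := s) n g y0 D F p.1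
    push_cast at h8
    linarith

/-- THE END POINT IS SPREAD: the weight of the ends at the distance `a wd n` of the centre is a small part of the whole
weight, with high probability. -/
theorem spread (h : In μ s c C n₀) {ε : ℝ} (hε : 0 < ε) :
    ∃ a : ℝ, 0 < a ∧ ∃ n₁ : ℕ, ∀ n : ℕ, n₁ ≤ n → ∀ I : Finset ℤ, (∀ y ∈ I, |(y : ℝ) - sl μ s * n| ≤ a * wd μ s n) →
      (law μ).real {η | ε * Real.exp (V μ s η (0, 0) n) < ∑ y ∈ I, wu μ s Set.univ η 0 0 n y} ≤ ε := by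
  have hc0 := h.c0
  have hsl : sl μ s ≤ 1 := h.sl_lt.le
  obtain ⟨R₁, hR₁, hstrip⟩ := strip h
  obtain ⟨R, b, b', b'', A, hR, hb', hb'', hA1, hb1, hcA, n₂, hTy⟩ := ty_prob h (ε := ε / 8) (R₁ := R₁) (by positivity)
    (by linarith)
  obtain ⟨Km, hKm, n₃, hmean⟩ := far_mean h (B := R₁ + 2) (by linarith)
  obtain ⟨u, hu⟩ : ∃ u : ℝ, u = 8 * Km / ε := ⟨_, rfl⟩
  have hu0 : 0 < u := by rw [hu]; positivity
  obtain ⟨p, hp, n₄, hlk⟩ := hstrip (b'' + u + 1)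
  obtain ⟨k, hk⟩ := exists_nat_ge (16 / (p * ε) + 1)
  have hk1 : 1 ≤ k := by
    have h1 : (0 : ℝ) < 16 / (p * ε) := by positivity
    have h2 : (1 : ℝ) ≤ k := by linarith
    exact_mod_cast h2
  have hk2 : 4 / (p * k) ≤ ε / 4 := by
    have hk0 : (0 : ℝ) < k := by exact_mod_cast hk1
    have h1 : 16 / (p * ε) ≤ k := by linarith
    rw [div_le_iff₀ (by positivity)] at h1 ⊢
    nlinarith
  obtain ⟨n₅, hw⟩ := (tendsto_atTop.1 (wd_tendsto h) 4).exists_forall_of_atTop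
  obtain ⟨n₆, hE6⟩ := (tendsto_atTop.1 h.tE (Real.log (4 / ε))).exists_forall_of_atTop
  obtain ⟨n₇, hwl⟩ := wd_lower h
  obtain ⟨N, hN⟩ : ∃ N : ℕ, N = n₂ + n₃ + n₄ + n₅ + n₆ + n₇ + 1 := ⟨_, rfl⟩
  have h2k : (0 : ℝ) < 2 ^ k := by positivity
  refine ⟨1 / (48 * 2 ^ k), by positivity, 6 * 2 ^ k * N, fun n hn I hI => ?_⟩
  -- the scales
  obtain ⟨g, hg⟩ : ∃ g : ℕ, g = n / (6 * 2 ^ k) := ⟨_, rfl⟩
  have hpow : 0 < 6 * 2 ^ k := by positivity
  have hgN : N ≤ g := by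
    rw [hg, Nat.le_div_iff_mul_le hpow]
    linarith
  have hg1 : 6 * 2 ^ k * g ≤ n := by
    rw [hg]
    exact Nat.mul_div_le n _
  have hg2 : n < 6 * 2 ^ k * (g + 1) := by
    rw [hg]
    exact Nat.lt_mul_div_succ n hpow
  obtain ⟨gs, hgs⟩ : ∃ gs : ℕ → ℕ, gs = fun i => g * 2 ^ i := ⟨_, rfl⟩
  have hgs1 : ∀ i, g ≤ gs i := fun i => by
    rw [hgs]
    exact Nat.le_mul_of_pos_right g (by positivity)
  have hgs2 : ∀ i, i < k → 6 * gs i ≤ n := by
    intro i hi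
    rw [hgs]
    have h1 : 2 ^ i ≤ 2 ^ k := Nat.pow_le_pow_right (by norm_num) hi.le
    calc 6 * (g * 2 ^ i) ≤ 6 * (g * 2 ^ k) := Nat.mul_le_mul_left 6 (Nat.mul_le_mul_left g h1)
      _ = 6 * 2 ^ k * g := by ring
      _ ≤ n := hg1
  have hgs3 : ∀ i j, i < j → 2 * gs i ≤ gs j := by
    intro i j hij
    rw [hgs]
    have h1 : 2 ^ (i + 1) ≤ 2 ^ j := Nat.pow_le_pow_right (by norm_num) hij
    calc 2 * (g * 2 ^ i) = g * 2 ^ (i + 1) := by ring
      _ ≤ g * 2 ^ j := Nat.mul_le_mul_left g h1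
  have hwi : ∀ i, 4 ≤ wd μ s (2 * gs i) := fun i => hw _ (by have := hgs1 i; omega)
  have hwn : ∀ i, i < k → 1 / (48 * 2 ^ k) * wd μ s n ≤ wd μ s (2 * gs i) / 4 := by
    intro i hi
    have h1 := hgs1 i
    have h2 := hgs2 i hi
    have h3 := hwl (2 * gs i) n (by omega) (by omega)
    have h4 : (n : ℝ) ≤ 12 * 2 ^ k * g := by
      have h5 : n ≤ 12 * 2 ^ k * g := by
        have : 6 * 2 ^ k * (g + 1) ≤ 6 * 2 ^ k * (2 * g) := Nat.mul_le_mul_left _ (by omega)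
        calc n ≤ 6 * 2 ^ k * (2 * g) := hg2.le.trans this
          _ = 12 * 2 ^ k * g := by ring
      exact_mod_cast h5
    have hgi : (g : ℝ) ≤ gs i := by exact_mod_cast h1
    have hg0 : (0 : ℝ) < g := by
      have : 0 < g := by omega
      exact_mod_cast this
    have hwp : 0 ≤ wd μ s (2 * gs i) := by linarith [hwi i]
    have h6 : 2 * (gs i : ℝ) * wd μ s n ≤ 2 * ((12 * 2 ^ k * gs i) * wd μ s (2 * gs i)) := by
      have h7 : ((2 * gs i : ℕ) : ℝ) * wd μ s n ≤ 2 * ((n : ℝ) * wd μ s (2 * gs i)) := h3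
      push_cast at h7
      have h8 : (n : ℝ) * wd μ s (2 * gs i) ≤ (12 * 2 ^ k * gs i) * wd μ s (2 * gs i) := by
        refine mul_le_mul_of_nonneg_right (h4.trans ?_) hwp
        exact mul_le_mul_of_nonneg_left hgi (by positivity)
      linarith
    have h9 : wd μ s n ≤ 12 * 2 ^ k * wd μ s (2 * gs i) := by
      have h10 : (0 : ℝ) < 2 * gs i := by linarith
      have h11 : 2 * (gs i : ℝ) * wd μ s n ≤ 2 * (gs i : ℝ) * (12 * 2 ^ k * wd μ s (2 * gs i)) := by linarith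
      exact le_of_mul_le_mul_left h11 h10
    calc 1 / (48 * 2 ^ k) * wd μ s n ≤ 1 / (48 * 2 ^ k) * (12 * 2 ^ k * wd μ s (2 * gs i)) :=
          mul_le_mul_of_nonneg_left h9 (by positivity)
      _ = wd μ s (2 * gs i) / 4 := by field_simp; ring
  -- the geometry
  obtain ⟨y0, hy0⟩ : ∃ y0 : ℤ, y0 = md μ s n := ⟨_, rfl⟩
  obtain ⟨Df, hDf⟩ : ∃ Df : ℕ → ℤ, Df = fun i => ⌈A * wd μ s (2 * gs i)⌉ + 1 := ⟨_, rfl⟩
  obtain ⟨Ff, hFf⟩ : ∃ Ff : ℕ → ℤ, Ff = fun i => ⌈R * wd μ s (2 * gs i) + 3⌉ := ⟨_, rfl⟩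
  obtain ⟨Gf, hGf⟩ : ∃ Gf : ℕ → ℤ, Gf = fun i => ⌈R₁ * wd μ s (2 * gs i)⌉ + 1 := ⟨_, rfl⟩
  have hD1 : ∀ i, A * wd μ s (2 * gs i) + 1 ≤ Df i := fun i => by
    rw [hDf]
    push_cast
    linarith [Int.le_ceil (A * wd μ s (2 * gs i))]
  have hD2 : ∀ i, (Df i : ℝ) ≤ A * wd μ s (2 * gs i) + 2 := fun i => by
    rw [hDf]
    push_cast
    linarith [(Int.ceil_lt_add_one (A * wd μ s (2 * gs i))).le]
  have hF1 : ∀ i, R * wd μ s (2 * gs i) + 3 ≤ Ff i := fun i => by rw [hFf]; exact Int.le_ceil _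
  have hF2 : ∀ i, (Ff i : ℝ) ≤ R * wd μ s (2 * gs i) + 4 := fun i => by
    rw [hFf]
    have := (Int.ceil_lt_add_one (R * wd μ s (2 * gs i) + 3)).le
    simp only
    linarith
  have hG1 : ∀ i, R₁ * wd μ s (2 * gs i) + 1 ≤ Gf i := fun i => by
    rw [hGf]
    push_cast
    linarith [Int.le_ceil (R₁ * wd μ s (2 * gs i))]
  have hG2 : ∀ i, (Gf i : ℝ) ≤ R₁ * wd μ s (2 * gs i) + 2 := fun i => by
    rw [hGf]
    push_cast
    linarith [(Int.ceil_lt_add_one (R₁ * wd μ s (2 * gs i))).le]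
  have hRw : ∀ i, 0 ≤ R₁ * wd μ s (2 * gs i) := fun i => mul_nonneg (by linarith) (by linarith [hwi i])
  have hG3 : ∀ i, 1 ≤ Gf i := fun i => by
    have h1 : (1 : ℝ) ≤ Gf i := by linarith [hG1 i, hRw i]
    exact_mod_cast h1
  have hF3 : ∀ i, 0 ≤ Ff i := fun i => by
    have h1 : 0 ≤ R * wd μ s (2 * gs i) := mul_nonneg hR (by linarith [hwi i])
    have h2 : (0 : ℝ) ≤ Ff i := by linarith [hF1 i]
    exact_mod_cast h2
  have hIi : ∀ i, i < k → ∀ y ∈ I, |(y : ℝ) - y0| ≤ A * wd μ s (2 * gs i) / 2 := by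
    intro i hi y hy
    have h1 := abs_le.1 (hI y hy)
    have h2 := hwn i hi
    have h3 := hwi i
    have h4 : (y0 : ℝ) ≤ sl μ s * n ∧ sl μ s * n < y0 + 1 := by
      rw [hy0]
      exact ⟨md_le n, lt_md n⟩
    have h7 : wd μ s (2 * gs i) ≤ A * wd μ s (2 * gs i) := by nlinarith
    rw [abs_le]
    constructor <;> linarith [h4.1, h4.2]
  -- the events
  obtain ⟨L, hL⟩ : ∃ L : ℕ → Set Env, L = fun i => LkS μ s (R₁ * wd μ s (2 * gs i))
    (aT μ s n (gs i) y0 (Df i) (Ff i) (Gf i)) (2 * gs i) ((b'' + u + 1) * EE μ s (2 * gs i)) := ⟨_, rfl⟩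
  obtain ⟨Tt, hTt⟩ : ∃ Tt : ℕ → Set Env, Tt = fun i => Ty μ s n (gs i) y0 (Df i) (Ff i) (Gf i) I
    (Real.exp ((b - c * A / 2) * EE μ s (2 * gs i))) (Real.exp (-(b' * EE μ s (2 * gs i))))
    (Real.exp (-(b'' * EE μ s (2 * gs i)))) := ⟨_, rfl⟩
  obtain ⟨Qs, hQs⟩ : ∃ Qs : ℕ → Set Env, Qs = fun i => {η | u * EE μ s (2 * gs i) <
    CQ μ s (St μ s (R₁ * wd μ s (2 * gs i)) (aT μ s n (gs i) y0 (Df i) (Ff i) (Gf i))) η
      (aT μ s n (gs i) y0 (Df i) (Ff i) (Gf i)) (2 * gs i) (2 * gs i) (2 * md μ s (2 * gs i))} := ⟨_, rfl⟩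
  have hLm : ∀ i, MeasurableSet (L i) := fun i => by rw [hL]; exact LkS_meas _ _ _ _
  have hTm : ∀ i, MeasurableSet (Tt i) := fun i => by rw [hTt]; exact measurable_Ty _ _ _ _ _ _ _ _ _ _
  have hQm : ∀ i, MeasurableSet (Qs i) := fun i => by
    rw [hQs]
    exact measurableSet_lt measurable_const (measurable_CQ _ _ _ _ _)
  have hLd : ∀ i (η η' : Env), (∀ p ∈ TT0 μ s (R₁ * wd μ s (2 * gs i)) (aT μ s n (gs i) y0 (Df i) (Ff i) (Gf i))
      (2 * gs i), η p = η' p) → (η ∈ L i ↔ η' ∈ L i) := fun i η η' hh => by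
    rw [hL]
    exact LkS_dep _ _ _ _ η η' hh
  have hTd : ∀ i (η η' : Env), (∀ p ∈ Qg μ s n (gs i) y0 (Df i) (Ff i), η p = η' p) →
      (η ∈ (Tt i)ᶜ ↔ η' ∈ (Tt i)ᶜ) := fun i η η' hh => by
    rw [hTt]
    exact not_congr (Ty_dep _ _ _ _ _ _ _ _ _ _ η η' hh)
  have hpL : ∀ i, i < k → p ≤ (law μ).real (L i) := by
    intro i _
    rw [hL]
    exact hlk (2 * gs i) (by have := hgs1 i; omega) _
  have hind : ∀ i j, i < j → j < k → (law μ).real (L i ∩ L j) = (law μ).real (L i) * (law μ).real (L j) := by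
    intro i j hij _
    refine real_inter_indep (hLm i) (hLm j) (hLd i) (hLd j) ?_
    rw [Set.disjoint_left]
    rintro q ⟨_, h1, _⟩ ⟨_, _, h2⟩
    have h1' : (n : ℤ) - 4 * gs i < q.1 := h1
    have h2' : q.1 ≤ (n : ℤ) - 4 * gs j + (2 * gs j : ℕ) := h2
    have h3 := hgs3 i j hij
    push_cast at h2'
    omega
  have hindp : ∀ i j, i < k → j < k → i ≠ j →
      (law μ).real (L i ∩ L j) = (law μ).real (L i) * (law μ).real (L j) := by
    intro i j hi hj hij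
    rcases lt_or_gt_of_ne hij with h1 | h1
    · exact hind i j h1 hj
    · rw [Set.inter_comm, hind j i h1 hi, mul_comm]
  -- the ends of the tubes
  have hm3 : ∀ i, ∀ y : ℤ, |(y : ℝ) - sl μ s * (2 * gs i : ℕ)| ≤ R₁ * wd μ s (2 * gs i) →
      0 ≤ 2 * md μ s (2 * gs i) - y ∧ 2 * md μ s (2 * gs i) - y ≤ (2 * gs i : ℕ) ∧
        ep μ s (2 * gs i) (2 * md μ s (2 * gs i) - y) ≤ Km * EE μ s (2 * gs i) := by
    intro i y hy
    have hgi := hgs1 i
    refine hmean (2 * gs i) (by omega) _ ?_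
    have h1 := md_le (μ := μ) (s := s) (2 * gs i)
    have h2 := lt_md (μ := μ) (s := s) (2 * gs i)
    have h3 := hwi i
    rw [abs_le] at hy ⊢
    push_cast at hy h1 h2 ⊢
    constructor <;> linarith [hy.1, hy.2]
  have hbad : ∀ i, i < k → (law μ).real (L i ∩ ((Tt i)ᶜ ∪ Qs i)) ≤ ε / 4 * (law μ).real (L i) := by
    intro i hi
    have hgi := hgs1 i
    have hLp : 0 ≤ (law μ).real (L i) := measureReal_nonneg
    have h1 : (law μ).real (L i ∩ (Tt i)ᶜ) ≤ ε / 8 * (law μ).real (L i) := by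
      rw [real_inter_indep (hLm i) (hTm i).compl (hLd i) (hTd i) (TT0_disj (by linarith [hG1 i])), mul_comm]
      refine mul_le_mul_of_nonneg_right ?_ hLp
      rw [hTt]
      exact hTy (gs i) n (by omega) (hgs2 i hi) y0 (Df i) (Ff i) (Gf i) I (hD1 i) (hD2 i) (hF1 i) (hF2 i)
        (by linarith [hG3 i]) (hG2 i) (hIi i hi)
    have hE := EE_pos (μ := μ) (s := s) (2 * gs i)
    have h2 : (law μ).real (L i ∩ Qs i) ≤ ε / 8 * (law μ).real (L i) := by
      have h3 := CQ_markov (μ := μ) (s := s) h.em (hRw i) (a := aT μ s n (gs i) y0 (Df i) (Ff i) (Gf i))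
        (Set.Subset.refl _) (2 * gs i) (2 * gs i) (2 * md μ s (2 * gs i)) (B := Km * EE μ s (2 * gs i)) (by positivity)
        (fun y _ _ hy2 => hm3 i y hy2)
        (S := TT0 μ s (R₁ * wd μ s (2 * gs i)) (aT μ s n (gs i) y0 (Df i) (Ff i) (Gf i)) (2 * gs i)) (fun q hq => hq.2.2)
        (hLm i) (hLd i) (u := u * EE μ s (2 * gs i)) (by positivity)
      have h6 : Km * EE μ s (2 * gs i) / (u * EE μ s (2 * gs i)) = ε / 8 := by
        rw [hu]
        field_simp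
      rw [h6] at h3
      rw [hQs]
      exact h3
    rw [Set.inter_union_distrib_left]
    refine (measureReal_union_le _ _).trans ?_
    linarith
  have hcount := Pool.Agent.W_7d29a1_59E.luck_count (P := law μ) hk1 (L := L) (B := fun i => (Tt i)ᶜ ∪ Qs i) hLm
    (fun i => (hTm i).compl.union (hQm i)) hindp hp hpL hbad
  refine (measureReal_mono (fun η hη => ?_) (measure_ne_top _ _)).trans (hcount.trans (by linarith))
  rw [Set.mem_ofPred_eq] at hη ⊢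
  intro i hi hLi
  by_contra hcon
  rw [Set.mem_union, not_or, Set.mem_compl_iff, not_not] at hcon
  obtain ⟨hT1, hQ1⟩ := hcon
  rw [hL] at hLi
  rw [hTt] at hT1
  rw [hQs, Set.mem_ofPred_eq, not_lt] at hQ1
  have hE := EE_pos (μ := μ) (s := s) (2 * gs i)
  have hgi := hgs1 i
  have hDi : ∀ y ∈ I, y0 - Df i ≤ y ∧ y ≤ y0 + Df i := by
    intro y hy
    have h1 := abs_le.1 (hIi i hi y hy)
    have h2 : A * wd μ s (2 * gs i) / 2 ≤ Df i := by
      have : 0 ≤ A * wd μ s (2 * gs i) := mul_nonneg (by linarith) (by linarith [hwi i])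
      linarith [hD1 i]
    have h3 : ((y0 - Df i : ℤ) : ℝ) ≤ y := by push_cast; linarith
    have h4 : (y : ℝ) ≤ ((y0 + Df i : ℤ) : ℝ) := by push_cast; linarith
    exact ⟨by exact_mod_cast h3, by exact_mod_cast h4⟩
  have hfin := one_scale (μ := μ) (s := s) hsl (hRw i) (by omega) (hgs2 i hi) (hF3 i) (hG3 i) I hDi (Real.exp_pos _)
    (Real.exp_pos _) (by positivity) (fun y _ _ hy2 => ⟨(hm3 i y hy2).1, (hm3 i y hy2).2.1⟩) hT1 hLi hQ1
  obtain ⟨E, hEd⟩ : ∃ E : ℝ, E = EE μ s (2 * gs i) := ⟨_, rfl⟩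
  rw [← hEd] at hfin hE
  -- the numbers
  have t1 : Real.exp ((b - c * A / 2) * E) / Real.exp (-(b' * E)) ≤ Real.exp (-E) := by
    rw [← Real.exp_sub, Real.exp_le_exp]
    have hC1 := h.C1
    nlinarith
  have t2 : ((2 * gs i : ℕ) : ℝ) * (Real.exp ((b - c * A / 2) * E) / (Real.exp (-(b' * E)) * Real.exp (-(b' * E)))) ≤
      Real.exp (-E) := by
    have h1 := h.lg (2 * gs i) (by omega)
    rw [← hEd] at h1
    have h2 : ((2 * gs i : ℕ) : ℝ) ≤ Real.exp (C * E) := by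
      have h3 : (0 : ℝ) < ((2 * gs i : ℕ) : ℝ) := by
        have : 0 < 2 * gs i := by omega
        exact_mod_cast this
      rw [← Real.log_le_iff_le_exp h3]
      exact h1
    have h4 : Real.exp ((b - c * A / 2) * E) / (Real.exp (-(b' * E)) * Real.exp (-(b' * E))) =
        Real.exp ((b - c * A / 2) * E + 2 * b' * E) := by
      rw [← Real.exp_add, ← Real.exp_sub]
      congr 1
      ring
    rw [h4]
    calc _ ≤ Real.exp (C * E) * Real.exp ((b - c * A / 2) * E + 2 * b' * E) :=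
          mul_le_mul_of_nonneg_right h2 (Real.exp_pos _).le
      _ = Real.exp (C * E + ((b - c * A / 2) * E + 2 * b' * E)) := by rw [← Real.exp_add]
      _ ≤ Real.exp (-E) := by
          rw [Real.exp_le_exp]
          nlinarith
  have t3 : Real.exp ((b - c * A / 2) * E) / (Real.exp (-(b'' * E)) * Real.exp ((b'' + u + 1) * E - u * E)) ≤
      Real.exp (-E) := by
    rw [← Real.exp_add, ← Real.exp_sub, Real.exp_le_exp]
    have hC1 := h.C1
    nlinarith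
  have t4 : 4 * Real.exp (-E) ≤ ε := by
    have h1 := hE6 (2 * gs i) (by omega)
    rw [← hEd] at h1
    have h2 : 4 / ε ≤ Real.exp E := by
      rw [← Real.log_le_iff_le_exp (by positivity)]
      exact h1
    rw [div_le_iff₀ hε] at h2
    rw [Real.exp_neg]
    rw [mul_inv_le_iff₀ (Real.exp_pos E)]
    linarith
  have hN0 := Real.exp_pos (V μ s η (0, 0) n)
  have h5 := mul_le_mul_of_nonneg_left (show 2 * (Real.exp ((b - c * A / 2) * E) / Real.exp (-(b' * E))) +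
    ((2 * gs i : ℕ) : ℝ) * (Real.exp ((b - c * A / 2) * E) / (Real.exp (-(b' * E)) * Real.exp (-(b' * E)))) +
    Real.exp ((b - c * A / 2) * E) / (Real.exp (-(b'' * E)) * Real.exp ((b'' + u + 1) * E - u * E)) ≤ ε by linarith) hN0.le
  have h6 := hfin.trans h5
  linarith

end

end Pool.Agent.W_7d29a1_HE
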